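import Mathlib

/-!
# Generic configurations of two-sided eroders are attractors

General lemmas for automata on `ℤ × ℤ` with binary states, neighbourhood radius one, which erode
finite islands of either colour.
-/

set_option autoImplicit false

namespace Pool.Agent.X128.Eroder

open Filter Topology

/-- A configuration assigns a bit to every site of the plane lattice. -/
abbrev Config : Type := ℤ × ℤ → Bool

/-- The sup norm of a site. -/
def nrm (v : ℤ × ℤ) : ℕ := max v.1.natAbs v.2.natAbs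

/-- Two configurations differ at only finitely many sites. -/
def FinitePert (s s' : Config) : Prop := {v : ℤ × ℤ | s v ≠ s' v}.Finite

/-- Neighbourhood radius one. -/
def Local (F : Config → Config) : Prop :=
  ∀ (s s' : Config) (v : ℤ × ℤ), (∀ w : ℤ × ℤ, nrm (w - v) ≤ 1 → s w = s' w) → F s v = F s' v

/-- Erosion of islands of either colour. -/
def Erodes (F : Config → Config) : Prop :=
  ∀ (m M : ℕ) (c : Bool) (y : Config), (∀ v : ℤ × ℤ, m < nrm v → nrm v ≤ M → y v = c) →
    ∀ t : ℕ, 4 * m + 1 ≤ t → ∀ v : ℤ × ℤ, nrm v + t ≤ M → F^[t] y v = c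

/-- Constant configurations are fixed. -/
def FixConst (F : Config → Config) : Prop := ∀ b : Bool, F (fun _ => b) = fun _ => b

/-- The attractor property. -/
def IsAttractor (F : Config → Config) (s : Config) : Prop :=
  ∀ s' : Config, FinitePert s s' → {p : (ℤ × ℤ) × ℕ | F^[p.2] s p.1 ≠ F^[p.2] s' p.1}.Finite

lemma nrm_le_of (v : ℤ × ℤ) (B : ℕ) : nrm v ≤ B ↔ v.1.natAbs ≤ B ∧ v.2.natAbs ≤ B := by
  unfold nrm; exact max_le_iff

lemma nrm_sub_le {v w : ℤ × ℤ} {k : ℕ} (h : nrm (w - v) ≤ k) :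
    nrm w ≤ nrm v + k ∧ nrm v ≤ nrm w + k := by
  unfold nrm at *
  simp only [Prod.fst_sub, Prod.snd_sub] at h
  omega

variable {F : Config → Config}

/-- Finite speed of propagation. -/
theorem speed (hF : Local F) (m : ℕ) (s s' : Config) (h : ∀ v : ℤ × ℤ, m < nrm v → s v = s' v) :
    ∀ t : ℕ, ∀ v : ℤ × ℤ, m + t < nrm v → F^[t] s v = F^[t] s' v := by
  intro t
  induction t with
  | zero => intro v hv; exact h v (by omega)
  | succ t ih =>
    intro v hv
    rw [Function.iterate_succ_apply', Function.iterate_succ_apply']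
    apply hF
    intro w hw
    apply ih
    have := (nrm_sub_le hw).2
    omega

theorem finite_box (B : ℕ) : {v : ℤ × ℤ | nrm v ≤ B}.Finite := by
  have h : {v : ℤ × ℤ | nrm v ≤ B} ⊆ (Set.Icc (-(B : ℤ)) B) ×ˢ (Set.Icc (-(B : ℤ)) B) := by
    intro v hv
    simp only [Set.mem_ofPred_eq, nrm_le_of] at hv
    exact ⟨⟨by omega, by omega⟩, ⟨by omega, by omega⟩⟩
  exact ((Set.finite_Icc _ _).prod (Set.finite_Icc _ _)).subset h

theorem bounded_of_finite {D : Set (ℤ × ℤ)} (hD : D.Finite) : ∃ N : ℕ, ∀ v ∈ D, nrm v ≤ N := by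
  obtain ⟨N, hN⟩ := (hD.image nrm).bddAbove
  exact ⟨N, fun v hv => hN ⟨v, hv, rfl⟩⟩

/-- A constant annulus of ratio 20 at scale `m`. -/
def Ann (m : ℕ) (b : Bool) (s : Config) : Prop :=
  ∀ v : ℤ × ℤ, m < nrm v → nrm v ≤ 20 * m → s v = b

/-- Criterion: constant annuli at arbitrarily large scales make an attractor. -/
theorem crit (hF : Local F) (hE : Erodes F) (s : Config)
    (h : ∀ N : ℕ, ∃ m, N ≤ m ∧ ∃ b, Ann m b s) : IsAttractor F s := by
  intro s' hs'
  obtain ⟨N, hN⟩ := bounded_of_finite hs'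
  obtain ⟨m, hm, b, hb⟩ := h (N + 1)
  have hagree : ∀ v : ℤ × ℤ, m < nrm v → s v = s' v := by
    intro v hv
    by_contra hne
    have := hN v hne
    omega
  have hb' : Ann m b s' := fun v h1 h2 => by rw [← hagree v h1]; exact hb v h1 h2
  set t0 : ℕ := 4 * m + 1 with ht0
  have heq : F^[t0] s = F^[t0] s' := by
    funext v
    by_cases hv : nrm v + t0 ≤ 20 * m
    · rw [hE m (20 * m) b s hb t0 le_rfl v hv, hE m (20 * m) b s' hb' t0 le_rfl v hv]
    · exact speed hF m s s' hagree t0 v (by omega)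
  have hlate : ∀ t : ℕ, t0 ≤ t → F^[t] s = F^[t] s' := by
    intro t ht
    obtain ⟨r, rfl⟩ := Nat.exists_eq_add_of_le' ht
    rw [Function.iterate_add_apply F r t0 s, Function.iterate_add_apply F r t0 s', heq]
  have hsub : {p : (ℤ × ℤ) × ℕ | F^[p.2] s p.1 ≠ F^[p.2] s' p.1} ⊆
      {v : ℤ × ℤ | nrm v ≤ m + t0} ×ˢ (Set.Iio t0) := by
    rintro ⟨v, t⟩ hp
    simp only [Set.mem_ofPred_eq] at hp
    have ht : t < t0 := by
      by_contra hcon
      exact hp (by rw [hlate t (by omega)])
    refine ⟨?_, ht⟩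
    simp only [Set.mem_ofPred_eq]
    by_contra hcon
    exact hp (speed hF m s s' hagree t v (by omega))
  exact ((finite_box _).prod (Set.finite_Iio _)).subset hsub

/-- Both constants occur on large boxes at late times. -/
def Osc (F : Config → Config) (s : Config) : Prop :=
  ∀ (b : Bool) (R T : ℕ), ∃ t, T ≤ t ∧ ∀ v : ℤ × ℤ, nrm v ≤ R → F^[t] s v = b

theorem osc_of (hE : Erodes F) (s : Config)
    (h : ∀ (b : Bool) (N : ℕ), ∃ m, N ≤ m ∧ Ann m b s) : Osc F s := by
  intro b R T
  obtain ⟨m, hm, hb⟩ := h b (R + T + 1)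
  refine ⟨4 * m + 1, by omega, fun v hv => ?_⟩
  exact hE m (20 * m) b s hb _ le_rfl v (by omega)

theorem not_bunch (hE : Erodes F) (s : Config) (h : Osc F s) (b : Bool) (t : ℕ) :
    ¬ FinitePert (F^[t] s) (fun _ => b) := by
  intro hfin
  obtain ⟨N, hN⟩ := bounded_of_finite hfin
  obtain ⟨r, hr, hval⟩ := h (!b) 0 (t + (4 * N + 1))
  have hval := hval (0, 0) (by simp [nrm])
  obtain ⟨u, rfl⟩ := Nat.exists_eq_add_of_le' (le_trans (Nat.le_add_right t (4 * N + 1)) hr)
  rw [Function.iterate_add_apply] at hval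
  have := hE N u b (F^[t] s)
    (fun w h1 _ => by
      by_contra hne
      have := hN w hne
      omega) u (by omega) (0, 0) (by simp [nrm])
  rw [this] at hval
  cases b <;> simp at hval

/-- Constant regions stay constant in their interior. -/
theorem region (hF : Local F) (hC : FixConst F) (m M : ℕ) (b : Bool) (s : Config)
    (h : ∀ v : ℤ × ℤ, m < nrm v → nrm v ≤ M → s v = b) :
    ∀ t : ℕ, ∀ v : ℤ × ℤ, m + t < nrm v → nrm v + t ≤ M → F^[t] s v = b := by
  intro t
  induction t with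
  | zero => intro v h1 h2; exact h v (by omega) (by omega)
  | succ t ih =>
    intro v h1 h2
    rw [Function.iterate_succ_apply']
    have e : F (F^[t] s) v = F (fun _ => b) v := by
      apply hF
      intro w hw
      have := nrm_sub_le hw
      exact ih w (by omega) (by omega)
    rw [e, hC b]

/-! ### Genericity -/

theorem isOpen_ann (m : ℕ) (b : Bool) : IsOpen {s : Config | Ann m b s} := by
  have hfin : {v : ℤ × ℤ | m < nrm v ∧ nrm v ≤ 20 * m}.Finite :=
    (finite_box (20 * m)).subset (fun v hv => hv.2)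
  have e : {s : Config | Ann m b s} =
      ⋂ v ∈ {v : ℤ × ℤ | m < nrm v ∧ nrm v ≤ 20 * m}, {s : Config | s v = b} := by
    ext s
    simp only [Set.mem_iInter, Set.mem_ofPred_eq]
    exact ⟨fun h v hv => h v hv.1 hv.2, fun h v h1 h2 => h v ⟨h1, h2⟩⟩
  rw [e]
  refine hfin.isOpen_biInter fun v _ => ?_
  exact (isOpen_discrete ({b} : Set Bool)).preimage
    (continuous_apply v : Continuous fun s : Config => s v)

theorem dense_ann (N : ℕ) (b : Bool) : Dense (⋃ m ∈ Set.Ici N, {s : Config | Ann m b s}) := by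
  intro s
  let g : ℕ → Config := fun m v => if nrm v ≤ m then s v else b
  have hg : Tendsto g atTop (𝓝 s) := by
    rw [tendsto_pi_nhds]
    intro v
    refine tendsto_const_nhds.congr' ?_
    filter_upwards [eventually_ge_atTop (nrm v)] with m hm
    simp only [g, if_pos hm]
  refine mem_closure_of_tendsto hg ?_
  filter_upwards [eventually_ge_atTop N] with m hm
  simp only [Set.mem_iUnion]
  refine ⟨m, hm, fun v h1 _ => ?_⟩
  simp only [g]
  rw [if_neg (by omega)]

theorem generic : ∀ᶠ s in residual Config, ∀ (b : Bool) (N : ℕ), ∃ m, N ≤ m ∧ Ann m b s := by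
  rw [eventually_countable_forall]
  intro b
  rw [eventually_countable_forall]
  intro N
  have h := residual_of_dense_open
    (isOpen_biUnion (s := Set.Ici N) fun m _ => isOpen_ann m b) (dense_ann N b)
  filter_upwards [h] with s hs
  simp only [Set.mem_iUnion] at hs
  obtain ⟨m, hm, hs⟩ := hs
  exact ⟨m, hm, hs⟩

/-! ### A continuum of attractors -/

/-- The bit on the scale `k`. -/
def bit (x : ℕ → Bool) (k : ℕ) : Bool :=
  if k % 4 = 0 then false else if k % 4 = 2 then true else x (Nat.unpair (k / 2)).1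

/-- Nested annuli of zeroes and ones with geometrically growing radii. -/
def S (x : ℕ → Bool) : Config := fun v => bit x (Nat.clog 20 (nrm v))

theorem S_scale (x : ℕ → Bool) (k : ℕ) (v : ℤ × ℤ) (h1 : 20 ^ k < nrm v)
    (h2 : nrm v ≤ 20 ^ (k + 1)) : S x v = bit x (k + 1) := by
  have : Nat.clog 20 (nrm v) = k + 1 := by
    apply le_antisymm
    · exact (Nat.clog_le_iff_le_pow (by norm_num)).2 h2
    · exact (Nat.lt_clog_iff_pow_lt (by norm_num)).2 h1
  unfold S
  rw [this]

theorem S_ann (x : ℕ → Bool) (b : Bool) (N : ℕ) : ∃ m, N ≤ m ∧ Ann m b (S x) := by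
  obtain ⟨k, hk, hval⟩ : ∃ k : ℕ, N ≤ k ∧ bit x (k + 1) = b := by
    cases b with
    | false =>
      refine ⟨4 * N + 3, by omega, ?_⟩
      unfold bit
      rw [if_pos (by omega)]
    | true =>
      refine ⟨4 * N + 1, by omega, ?_⟩
      unfold bit
      rw [if_neg (by omega), if_pos (by omega)]
  have hkp : k < 20 ^ k := Nat.lt_pow_self (by norm_num)
  refine ⟨20 ^ k, by omega, fun v h1 h2 => ?_⟩
  rw [← hval]
  exact S_scale x k v h1 (by rw [pow_succ]; omega)

theorem S_diff (hF : Local F) (hC : FixConst F) (x y : ℕ → Bool) (hxy : x ≠ y) (t u : ℕ) :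
    ¬ FinitePert (F^[t] (S x)) (F^[u] (S y)) := by
  intro hfin
  obtain ⟨N, hN⟩ := bounded_of_finite hfin
  obtain ⟨n, hn⟩ := Function.ne_iff.1 hxy
  set j := N + t + u with hj
  set k := 2 * Nat.pair n j with hk
  have hbit : ∀ z : ℕ → Bool, bit z (k + 1) = z n := by
    intro z
    unfold bit
    rw [if_neg (by omega), if_neg (by omega)]
    have : (k + 1) / 2 = Nat.pair n j := by omega
    rw [this, Nat.unpair_pair]
  have hjk : j ≤ k := by
    have := Nat.right_le_pair n j
    omega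
  have hkp : k < 20 ^ k := Nat.lt_pow_self (by norm_num)
  have hp : 20 ^ (k + 1) = 20 * 20 ^ k := by ring
  set v : ℤ × ℤ := (((20 ^ k + 2 * (t + u) + 1 : ℕ) : ℤ), 0) with hv
  have hvn : nrm v = 20 ^ k + 2 * (t + u) + 1 := by
    rw [hv]; unfold nrm; simp only [Int.natAbs_natCast, Int.natAbs_zero]; omega
  have h1 : F^[t] (S x) v = x n := by
    rw [← hbit x]
    exact region hF hC (20 ^ k) (20 ^ (k + 1)) _ (S x) (fun w a b => S_scale x k w a b) t v
      (by omega) (by omega)
  have h2 : F^[u] (S y) v = y n := by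
    rw [← hbit y]
    exact region hF hC (20 ^ k) (20 ^ (k + 1)) _ (S y) (fun w a b => S_scale y k w a b) u v
      (by omega) (by omega)
  have h3 : F^[t] (S x) v ≠ F^[u] (S y) v := by rw [h1, h2]; exact hn
  have := hN v h3
  omega

/-- The full conclusion for a local two-sided eroder fixing the constants. -/
theorem main (hF : Local F) (hE : Erodes F) (hC : FixConst F) :
    (∀ᶠ s in residual Config, IsAttractor F s ∧
      (∀ (t : ℕ) (b : Bool), ¬ FinitePert (F^[t] s) (fun _ => b)) ∧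
      ∀ (b : Bool) (R T : ℕ), ∃ t, T ≤ t ∧ ∀ v : ℤ × ℤ, nrm v ≤ R → F^[t] s v = b) ∧
    (∃ S : (ℕ → Bool) → Config,
      (∀ x, IsAttractor F (S x) ∧
        (∀ (t : ℕ) (b : Bool), ¬ FinitePert (F^[t] (S x)) (fun _ => b)) ∧
        ∀ (b : Bool) (R T : ℕ), ∃ t, T ≤ t ∧ ∀ v : ℤ × ℤ, nrm v ≤ R → F^[t] (S x) v = b) ∧
      ∀ x y, x ≠ y → ∀ t u : ℕ, ¬ FinitePert (F^[t] (S x)) (F^[u] (S y))) := by
  constructor
  · filter_upwards [generic] with s hs
    have ho := osc_of hE s hs
    refine ⟨crit hF hE s fun N => ?_, fun t b => not_bunch hE s ho b t, ho⟩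
    obtain ⟨m, hm, h⟩ := hs true N
    exact ⟨m, hm, true, h⟩
  · refine ⟨S, fun x => ?_, fun x y hxy t u => S_diff hF hC x y hxy t u⟩
    have ho := osc_of hE (S x) (S_ann x)
    refine ⟨crit hF hE _ fun N => ?_, fun t b => not_bunch hE _ ho b t, ho⟩
    obtain ⟨m, hm, h⟩ := S_ann x true N
    exact ⟨m, hm, true, h⟩

end Pool.Agent.X128.Eroder
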