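import Mathlib

/-!
# The arithmetic of products of `t! / t ^ t` equal to `12 / 625`
-/

set_option autoImplicit false

namespace Pool.Agent.X128.DTArith

open Finset

/-- `n! / n ^ n`. -/
noncomputable def f (n : ℕ) : ℚ := (n.factorial : ℚ) / (n : ℚ) ^ n

lemma f_nonneg (n : ℕ) : 0 ≤ f n := by unfold f; positivity

lemma f_le_one (n : ℕ) : f n ≤ 1 := by
  unfold f
  have h := Nat.factorial_le_pow n
  have h' : (n.factorial : ℚ) ≤ (n : ℚ) ^ n := by exact_mod_cast h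
  exact div_le_one_of_le₀ h' (by positivity)

lemma f_succ (n : ℕ) (hn : 1 ≤ n) : f (n + 1) ≤ f n := by
  unfold f
  rw [Nat.factorial_succ, pow_succ]
  have hn' : (0 : ℚ) < n := by exact_mod_cast hn
  rw [div_le_div_iff₀ (by positivity) (by positivity)]
  push_cast
  have h : (n : ℚ) ^ n ≤ ((n : ℚ) + 1) ^ n := pow_le_pow_left₀ hn'.le (by linarith) n
  have h2 : (0 : ℚ) ≤ ((n : ℚ) + 1) * n.factorial := by positivity
  nlinarith [mul_le_mul_of_nonneg_left h h2]

lemma f_big (n : ℕ) (hn : 6 ≤ n) : f n < 12 / 625 := by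
  have h : ∀ k : ℕ, f (6 + k) ≤ f 6 := by
    intro k
    induction k with
    | zero => exact le_refl _
    | succ k ih => exact (f_succ (6 + k) (by omega)).trans ih
  obtain ⟨k, rfl⟩ := Nat.exists_eq_add_of_le hn
  refine (h k).trans_lt ?_
  unfold f
  norm_num [Nat.factorial]

lemma uniq (x y z x' y' z' : ℕ) (h : 2 ^ x * 3 ^ y * 5 ^ z = 2 ^ x' * 3 ^ y' * 5 ^ z') :
    x = x' ∧ y = y' ∧ z = z' := by
  have key : ∀ (x y z : ℕ), ((2 ^ x * 3 ^ y * 5 ^ z).factorization 2 = x) ∧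
      ((2 ^ x * 3 ^ y * 5 ^ z).factorization 3 = y) ∧
      ((2 ^ x * 3 ^ y * 5 ^ z).factorization 5 = z) := by
    intro x y z
    have e : (2 ^ x * 3 ^ y * 5 ^ z).factorization =
        Finsupp.single 2 x + Finsupp.single 3 y + Finsupp.single 5 z := by
      rw [Nat.factorization_mul (by positivity) (by positivity),
        Nat.factorization_mul (by positivity) (by positivity),
        Nat.Prime.factorization_pow Nat.prime_two, Nat.Prime.factorization_pow Nat.prime_three,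
        Nat.Prime.factorization_pow Nat.prime_five]
    rw [e]
    refine ⟨?_, ?_, ?_⟩ <;> simp [Finsupp.single_apply]
  obtain ⟨a1, a2, a3⟩ := key x y z
  obtain ⟨b1, b2, b3⟩ := key x' y' z'
  rw [h] at a1 a2 a3
  exact ⟨a1.symm.trans b1, a2.symm.trans b2, a3.symm.trans b3⟩

theorem arith {D : Type*} [Fintype D] [DecidableEq D] (t : D → ℕ) (ht : ∀ σ, 1 ≤ t σ)
    (h : ∏ σ, f (t σ) = 12 / 625) :
    (∃ σ, t σ = 2) ∧ (∃ σ, t σ = 5) ∧
      ∑ σ, t σ = (Finset.univ.filter fun σ => t σ = 1).card + 7 := by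
  have hle : ∀ σ, t σ ≤ 5 := by
    intro σ
    by_contra hc
    have h1 : f (t σ) < 12 / 625 := f_big _ (by omega)
    have h2 : ∏ σ', f (t σ') ≤ f (t σ) := by
      rw [← Finset.mul_prod_erase Finset.univ (fun σ' => f (t σ')) (Finset.mem_univ σ)]
      have h3 : ∏ σ' ∈ Finset.univ.erase σ, f (t σ') ≤ 1 :=
        Finset.prod_le_one (fun _ _ => f_nonneg _) (fun _ _ => f_le_one _)
      calc f (t σ) * ∏ σ' ∈ Finset.univ.erase σ, f (t σ') ≤ f (t σ) * 1 :=
            mul_le_mul_of_nonneg_left h3 (f_nonneg _)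
        _ = f (t σ) := mul_one _
    rw [h] at h2
    exact absurd h1 (not_lt.2 h2)
  have hmaps : ∀ σ ∈ (Finset.univ : Finset D), t σ ∈ ({1, 2, 3, 4, 5} : Finset ℕ) := by
    intro σ _
    have := ht σ
    have := hle σ
    simp only [Finset.mem_insert, Finset.mem_singleton]
    omega
  set A : ℕ → ℕ := fun k => (Finset.univ.filter fun σ => t σ = k).card with hA
  have hprod : ∏ σ, f (t σ) = ∏ k ∈ ({1, 2, 3, 4, 5} : Finset ℕ), f k ^ A k := by
    rw [← Finset.prod_fiberwise_of_maps_to' hmaps (fun k => f k)]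
    refine Finset.prod_congr rfl fun k _ => ?_
    rw [Finset.prod_const]
  have hsum : ∑ σ, t σ = ∑ k ∈ ({1, 2, 3, 4, 5} : Finset ℕ), A k * k := by
    rw [← Finset.sum_fiberwise_of_maps_to' hmaps (fun k => k)]
    refine Finset.sum_congr rfl fun k _ => ?_
    rw [Finset.sum_const, smul_eq_mul]
  rw [h] at hprod
  rw [Finset.prod_insert (by decide), Finset.prod_insert (by decide),
    Finset.prod_insert (by decide), Finset.prod_insert (by decide), Finset.prod_singleton] at hprod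
  rw [Finset.sum_insert (by decide), Finset.sum_insert (by decide),
    Finset.sum_insert (by decide), Finset.sum_insert (by decide), Finset.sum_singleton] at hsum
  have f1 : f 1 = 1 := by unfold f; norm_num
  have f2 : f 2 = 1 / 2 := by unfold f; norm_num
  have f3 : f 3 = 2 / 9 := by unfold f; norm_num [Nat.factorial]
  have f4 : f 4 = 3 / 32 := by unfold f; norm_num [Nat.factorial]
  have f5 : f 5 = 24 / 625 := by unfold f; norm_num [Nat.factorial]
  rw [f1, f2, f3, f4, f5, one_pow, one_mul, div_pow, div_pow, div_pow, div_pow, one_pow] at hprod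
  have hq : (12 : ℚ) * 2 ^ A 2 * 9 ^ A 3 * 32 ^ A 4 * 625 ^ A 5 =
      2 ^ A 3 * 3 ^ A 4 * 24 ^ A 5 * 625 := by
    field_simp at hprod
    linarith
  have hn : 12 * 2 ^ A 2 * 9 ^ A 3 * 32 ^ A 4 * 625 ^ A 5 =
      2 ^ A 3 * 3 ^ A 4 * 24 ^ A 5 * 625 := by exact_mod_cast hq
  have hl : 12 * 2 ^ A 2 * 9 ^ A 3 * 32 ^ A 4 * 625 ^ A 5 =
      2 ^ (2 + A 2 + 5 * A 4) * 3 ^ (1 + 2 * A 3) * 5 ^ (4 * A 5) := by
    have e1 : (9 : ℕ) ^ A 3 = 3 ^ (2 * A 3) := by rw [pow_mul]; norm_num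
    have e2 : (32 : ℕ) ^ A 4 = 2 ^ (5 * A 4) := by rw [pow_mul]; norm_num
    have e3 : (625 : ℕ) ^ A 5 = 5 ^ (4 * A 5) := by rw [pow_mul]; norm_num
    rw [e1, e2, e3]
    ring
  have hr : 2 ^ A 3 * 3 ^ A 4 * 24 ^ A 5 * 625 =
      2 ^ (A 3 + 3 * A 5) * 3 ^ (A 4 + A 5) * 5 ^ 4 := by
    have e1 : (24 : ℕ) ^ A 5 = 2 ^ (3 * A 5) * 3 ^ (A 5) := by
      rw [pow_mul, ← mul_pow]; norm_num
    rw [e1]
    ring
  rw [hl, hr] at hn
  obtain ⟨c1, c2, c3⟩ := uniq _ _ _ _ _ _ hn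
  have hA5 : A 5 = 1 := by omega
  have hA3 : A 3 = 0 := by omega
  have hA4 : A 4 = 0 := by omega
  have hA2 : A 2 = 1 := by omega
  refine ⟨?_, ?_, ?_⟩
  · have : 0 < (Finset.univ.filter fun σ => t σ = 2).card := by
      show 0 < A 2
      omega
    obtain ⟨σ, hσ⟩ := Finset.card_pos.1 this
    exact ⟨σ, (Finset.mem_filter.1 hσ).2⟩
  · have : 0 < (Finset.univ.filter fun σ => t σ = 5).card := by
      show 0 < A 5
      omega
    obtain ⟨σ, hσ⟩ := Finset.card_pos.1 this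
    exact ⟨σ, (Finset.mem_filter.1 hσ).2⟩
  · rw [hsum, hA2, hA3, hA4, hA5]
    show A 1 * 1 + _ = A 1 + 7
    omega

end Pool.Agent.X128.DTArith
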