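import Mathlib

/-!
# Counting common transversals of two partitions
-/

set_option autoImplicit false

namespace Pool.Agent.X128.DT

open Finset

variable {G X Y D : Type*} [Fintype G] [Fintype X] [Fintype Y] [Fintype D]
  [DecidableEq G] [DecidableEq X] [DecidableEq Y] [DecidableEq D]

/-- Bijections which respect the block maps. -/
theorem card_equivs (p : X → D) (q : Y → D)
    (hfib : ∀ σ, Fintype.card {x // p x = σ} = Fintype.card {y // q y = σ}) :
    Fintype.card {e : X ≃ Y // ∀ x, q (e x) = p x} =
      ∏ σ, (Fintype.card {x // p x = σ}).factorial := by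
  classical
  have e1 : ∀ σ, Nonempty ({x // p x = σ} ≃ {y // q y = σ}) := fun σ =>
    Fintype.card_eq.1 (hfib σ)
  let f := fun σ => (e1 σ).some
  let e0 : X ≃ Y := (Equiv.sigmaFiberEquiv p).symm.trans
    ((Equiv.sigmaCongrRight f).trans (Equiv.sigmaFiberEquiv q))
  have he0 : ∀ x, q (e0 x) = p x := by
    intro x
    have := (f (p x) ⟨x, rfl⟩).2
    exact this
  rw [← DomMulAct.stabilizer_card p]
  refine Fintype.card_congr ?_
  refine (Equiv.subtypeEquiv (Equiv.equivCongr (Equiv.refl X) e0.symm) ?_)
  intro e
  constructor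
  · intro h
    funext x
    have h2 := he0 (e0.symm (e x))
    rw [Equiv.apply_symm_apply, h] at h2
    simp only [Function.comp_apply, Equiv.equivCongr_apply_apply, Equiv.refl_symm,
      Equiv.refl_apply]
    exact h2.symm
  · intro h x
    have := congrFun h x
    simp only [Function.comp_apply, Equiv.equivCongr_apply_apply, Equiv.refl_symm,
      Equiv.refl_apply] at this
    have h2 := he0 (e0.symm (e x))
    rw [Equiv.apply_symm_apply] at h2
    rw [h2, this]

/-- The sections of `a` which are mapped bijectively by `b`. -/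
def Sec (a : G → X) (b : G → Y) : Type _ :=
  {s : X → G // (∀ x, a (s x) = x) ∧ Function.Bijective (fun x => b (s x))}

noncomputable instance (a : G → X) (b : G → Y) : Fintype (Sec a b) := by
  classical
  unfold Sec
  infer_instance

omit [DecidableEq G] in
theorem card_sec (a : G → X) (b : G → Y) (p : X → D) (q : Y → D) (m : D → ℕ)
    (hpq : ∀ g, p (a g) = q (b g))
    (hm : ∀ x y, p x = q y → Fintype.card {g // a g = x ∧ b g = y} = m (p x))
    (hfib : ∀ σ, Fintype.card {x // p x = σ} = Fintype.card {y // q y = σ}) :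
    Fintype.card (Sec a b) =
      ∏ σ, ((Fintype.card {x // p x = σ}).factorial * m σ ^ (Fintype.card {x // p x = σ})) := by
  classical
  have key : Fintype.card (Sec a b) =
      Fintype.card (Σ e : X ≃ Y, (∀ x, {g // a g = x ∧ b g = e x})) := by
    refine Fintype.card_congr ?_
    refine
      { toFun := fun s => ⟨Equiv.ofBijective _ s.2.2, fun x => ⟨s.1 x, s.2.1 x, rfl⟩⟩
        invFun := fun t => ⟨fun x => (t.2 x).1, fun x => (t.2 x).2.1, ?_⟩
        left_inv := fun s => rfl
        right_inv := ?_ }
    · have : (fun x => b (t.2 x).1) = t.1 := by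
        funext x
        exact (t.2 x).2.2
      rw [this]
      exact t.1.bijective
    · rintro ⟨e, s⟩
      have he : Equiv.ofBijective (fun x => b (s x).1) (by
          have : (fun x => b (s x).1) = e := by
            funext x
            exact (s x).2.2
          rw [this]
          exact e.bijective) = e := by
        ext x
        exact (s x).2.2
      refine Sigma.ext he ?_
      refine Function.hfunext rfl ?_
      intro x x' hx
      cases hx
      simp only
      refine (Subtype.heq_iff_coe_eq ?_).2 rfl
      intro g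
      rw [he]
  rw [key, Fintype.card_sigma]
  have hterm : ∀ e : X ≃ Y, Fintype.card (∀ x, {g // a g = x ∧ b g = e x}) =
      if (∀ x, q (e x) = p x) then ∏ σ, m σ ^ (Fintype.card {x // p x = σ}) else 0 := by
    intro e
    rw [Fintype.card_pi]
    split_ifs with h
    · rw [Finset.prod_congr rfl (fun x _ => hm x (e x) (h x).symm)]
      rw [← Finset.prod_fiberwise' (Finset.univ : Finset X) p (fun σ => m σ)]
      refine Finset.prod_congr rfl fun σ _ => ?_
      rw [Finset.prod_const, Fintype.card_subtype]
    · push Not at h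
      obtain ⟨x, hx⟩ := h
      refine Finset.prod_eq_zero (Finset.mem_univ x) ?_
      rw [Fintype.card_eq_zero_iff]
      refine ⟨fun g => hx ?_⟩
      rw [← g.2.2, ← hpq, g.2.1]
  rw [Finset.sum_congr rfl (fun e _ => hterm e), ← Finset.sum_filter, Finset.sum_const,
    smul_eq_mul, Finset.prod_mul_distrib, ← card_equivs p q hfib, Fintype.card_subtype]

/-- The sets which meet every fibre of `a` and every fibre of `b` in exactly one point correspond
to sections. -/
theorem card_sets (a : G → X) (b : G → Y) :
    Nat.card {S : Finset G // (∀ x, ∃! g, g ∈ S ∧ a g = x) ∧ (∀ y, ∃! g, g ∈ S ∧ b g = y)} =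
      Fintype.card (Sec a b) := by
  classical
  rw [← Nat.card_eq_fintype_card]
  refine (Nat.card_congr (Equiv.ofBijective
    (fun s : Sec a b => (⟨Finset.univ.image s.1, ?_, ?_⟩ :
      {S : Finset G // (∀ x, ∃! g, g ∈ S ∧ a g = x) ∧ (∀ y, ∃! g, g ∈ S ∧ b g = y)})) ?_)).symm
  · intro x
    refine ⟨s.1 x, ⟨Finset.mem_image_of_mem _ (Finset.mem_univ x), s.2.1 x⟩, ?_⟩
    rintro g ⟨hg, hgx⟩
    obtain ⟨x', -, rfl⟩ := Finset.mem_image.1 hg
    rw [s.2.1] at hgx
    rw [hgx]
  · intro y
    obtain ⟨x, hx⟩ := s.2.2.2 y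
    refine ⟨s.1 x, ⟨Finset.mem_image_of_mem _ (Finset.mem_univ x), hx⟩, ?_⟩
    rintro g ⟨hg, hgy⟩
    obtain ⟨x', -, rfl⟩ := Finset.mem_image.1 hg
    have : x' = x := s.2.2.1 (by simp only [hgy]; exact hx.symm)
    rw [this]
  · constructor
    · intro s s' h
      have h' : Finset.univ.image s.1 = Finset.univ.image s'.1 := congrArg Subtype.val h
      apply Subtype.ext
      funext x
      have hx : s.1 x ∈ Finset.univ.image s'.1 := by
        rw [← h']; exact Finset.mem_image_of_mem _ (Finset.mem_univ x)
      obtain ⟨x', -, hx'⟩ := Finset.mem_image.1 hx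
      have h1 := s.2.1 x
      rw [← hx', s'.2.1] at h1
      rw [← hx', h1]
    · rintro ⟨S, hS1, hS2⟩
      have hc : ∀ x, ∃ g, g ∈ S ∧ a g = x := fun x => (hS1 x).exists
      choose s hs using hc
      refine ⟨⟨s, fun x => (hs x).2, ?_, ?_⟩, ?_⟩
      · intro x x' hxx
        simp only at hxx
        have := (hS2 (b (s x'))).unique ⟨(hs x).1, hxx⟩ ⟨(hs x').1, rfl⟩
        have h2 := congrArg a this
        rw [(hs x).2, (hs x').2] at h2
        exact h2
      · intro y
        obtain ⟨g, hg, -⟩ := hS2 y
        refine ⟨a g, ?_⟩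
        have := (hS1 (a g)).unique ⟨(hs (a g)).1, (hs (a g)).2⟩ ⟨hg.1, rfl⟩
        simp only [this]
        exact hg.2
      · apply Subtype.ext
        ext g
        simp only [Finset.mem_image, Finset.mem_univ, true_and]
        constructor
        · rintro ⟨x, rfl⟩
          exact (hs x).1
        · intro hg
          exact ⟨a g, (hS1 (a g)).unique ⟨(hs (a g)).1, (hs (a g)).2⟩ ⟨hg, rfl⟩⟩

end Pool.Agent.X128.DT
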