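import Mathlib
import Pool.Agent.X128.DT

/-!
# Common transversals of cosets and double cosets
-/

set_option autoImplicit false

namespace Pool.Agent.X128.DTGroup

open Finset

variable {G : Type*} [Group G] [Fintype G]

/-- The conjugate `g⁻¹ K g`. -/
def Kc (K : Subgroup G) (g : G) : Subgroup G := K.comap (MulAut.conj g).toMonoidHom

omit [Fintype G] in
lemma mem_Kc (K : Subgroup G) (g x : G) : x ∈ Kc K g ↔ g * x * g⁻¹ ∈ K := by
  simp [Kc, Subgroup.mem_comap]

omit [Fintype G] in
lemma card_Kc (K : Subgroup G) (g : G) : Nat.card (Kc K g) = Nat.card K := by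
  refine Nat.card_congr
    { toFun := fun x => ⟨g * x.1 * g⁻¹, (mem_Kc K g x.1).1 x.2⟩
      invFun := fun y => ⟨g⁻¹ * y.1 * g, by
        rw [mem_Kc]
        have : g * (g⁻¹ * y.1 * g) * g⁻¹ = y.1 := by group
        rw [this]
        exact y.2⟩
      left_inv := fun x => Subtype.ext (by simp only; group)
      right_inv := fun y => Subtype.ext (by simp only; group) }

/-- Left coset map. -/
def am (H : Subgroup G) (g : G) : G ⧸ H := (g : G ⧸ H)

/-- Right coset map. -/
def bm (K : Subgroup G) (g : G) : Quotient (QuotientGroup.rightRel K) := Quotient.mk'' g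

/-- Double coset map. -/
def dm (H K : Subgroup G) (g : G) : DoubleCoset.Quotient (K : Set G) (H : Set G) :=
  DoubleCoset.mk K H g

omit [Fintype G] in
lemma am_eq (H : Subgroup G) (g g' : G) : am H g = am H g' ↔ g⁻¹ * g' ∈ H := QuotientGroup.eq

omit [Fintype G] in
lemma bm_eq (K : Subgroup G) (g g' : G) : bm K g = bm K g' ↔ g' * g⁻¹ ∈ K := by
  unfold bm
  rw [Quotient.eq'', QuotientGroup.rightRel_apply]

omit [Fintype G] in
lemma dm_eq (H K : Subgroup G) (g g' : G) :
    dm H K g = dm H K g' ↔ ∃ k ∈ K, ∃ h ∈ H, g' = k * g * h := DoubleCoset.eq K H g g'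

/-- From left cosets to double cosets. -/
def pm (H K : Subgroup G) : G ⧸ H → DoubleCoset.Quotient (K : Set G) (H : Set G) :=
  Quotient.lift (dm H K) (by
    intro g g' h
    rw [dm_eq]
    have h' : g⁻¹ * g' ∈ H := QuotientGroup.leftRel_apply.1 h
    exact ⟨1, K.one_mem, g⁻¹ * g', h', by group⟩)

/-- From right cosets to double cosets. -/
def qm (H K : Subgroup G) : Quotient (QuotientGroup.rightRel K) →
    DoubleCoset.Quotient (K : Set G) (H : Set G) :=
  Quotient.lift (dm H K) (by
    intro g g' h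
    rw [dm_eq]
    have h' : g' * g⁻¹ ∈ K := QuotientGroup.rightRel_apply.1 h
    exact ⟨g' * g⁻¹, h', 1, H.one_mem, by group⟩)

omit [Fintype G] in
lemma pm_am (H K : Subgroup G) (g : G) : pm H K (am H g) = dm H K g := rfl

omit [Fintype G] in
lemma qm_bm (H K : Subgroup G) (g : G) : qm H K (bm K g) = dm H K g := rfl

omit [Fintype G] in
lemma am_surj (H : Subgroup G) : Function.Surjective (am H) := QuotientGroup.mk_surjective

omit [Fintype G] in
lemma bm_surj (K : Subgroup G) : Function.Surjective (bm K) := Quotient.mk''_surjective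

omit [Fintype G] in
lemma card_am (H : Subgroup G) (x : G ⧸ H) : Nat.card {g // am H g = x} = Nat.card H := by
  obtain ⟨g0, rfl⟩ := am_surj H x
  refine Nat.card_congr
    { toFun := fun g => ⟨g0⁻¹ * g.1, (am_eq H g0 g.1).1 g.2.symm⟩
      invFun := fun h => ⟨g0 * h.1, ((am_eq H g0 (g0 * h.1)).2 (by
        rw [inv_mul_cancel_left]; exact h.2)).symm⟩
      left_inv := fun x => Subtype.ext (by simp)
      right_inv := fun y => Subtype.ext (by simp) }

omit [Fintype G] in
lemma card_bm (K : Subgroup G) (y : Quotient (QuotientGroup.rightRel K)) :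
    Nat.card {g // bm K g = y} = Nat.card K := by
  obtain ⟨g0, rfl⟩ := bm_surj K y
  refine Nat.card_congr
    { toFun := fun g => ⟨g.1 * g0⁻¹, (bm_eq K g0 g.1).1 g.2.symm⟩
      invFun := fun h => ⟨h.1 * g0, ((bm_eq K g0 (h.1 * g0)).2 (by
        rw [mul_inv_cancel_right]; exact h.2)).symm⟩
      left_inv := fun x => Subtype.ext (by simp)
      right_inv := fun y => Subtype.ext (by simp) }

omit [Fintype G] in
lemma card_ab_self (H K : Subgroup G) (g0 : G) :
    Nat.card {g // am H g = am H g0 ∧ bm K g = bm K g0} =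
      Nat.card (H ⊓ Kc K g0 : Subgroup G) := by
  refine Nat.card_congr
    { toFun := fun g => ⟨g0⁻¹ * g.1, Subgroup.mem_inf.2 ⟨(am_eq H g0 g.1).1 g.2.1.symm, ?_⟩⟩
      invFun := fun h => ⟨g0 * h.1, ?_, ?_⟩
      left_inv := fun x => Subtype.ext (by simp)
      right_inv := fun y => Subtype.ext (by simp) }
  · rw [mem_Kc]
    have := (bm_eq K g0 g.1).1 g.2.2.symm
    have e : g0 * (g0⁻¹ * g.1) * g0⁻¹ = g.1 * g0⁻¹ := by group
    rw [e]
    exact this
  · exact ((am_eq H g0 (g0 * h.1)).2 (by rw [inv_mul_cancel_left]; exact h.2.1)).symm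
  · exact ((bm_eq K g0 (g0 * h.1)).2 ((mem_Kc K g0 h.1).1 h.2.2)).symm

omit [Fintype G] in
lemma card_inter_congr (H K : Subgroup G) (g g' : G) (hd : dm H K g = dm H K g') :
    Nat.card (H ⊓ Kc K g : Subgroup G) = Nat.card (H ⊓ Kc K g' : Subgroup G) := by
  obtain ⟨k, hk, h, hh, rfl⟩ := (dm_eq H K g g').1 hd
  clear * - hk hh
  refine Nat.card_congr
    { toFun := fun x => ⟨h⁻¹ * x.1 * h, Subgroup.mem_inf.2 ⟨?_, ?_⟩⟩
      invFun := fun x => ⟨h * x.1 * h⁻¹, Subgroup.mem_inf.2 ⟨?_, ?_⟩⟩
      left_inv := fun x => Subtype.ext (by simp only; group)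
      right_inv := fun y => Subtype.ext (by simp only; group) }
  · exact H.mul_mem (H.mul_mem (H.inv_mem hh) x.2.1) hh
  · rw [mem_Kc]
    have e : k * g * h * (h⁻¹ * x.1 * h) * (k * g * h)⁻¹ = k * (g * x.1 * g⁻¹) * k⁻¹ := by group
    rw [e]
    exact K.mul_mem (K.mul_mem hk ((mem_Kc K g x.1).1 x.2.2)) (K.inv_mem hk)
  · exact H.mul_mem (H.mul_mem hh x.2.1) (H.inv_mem hh)
  · rw [mem_Kc]
    have h2 := (mem_Kc K _ x.1).1 x.2.2
    have e : g * (h * x.1 * h⁻¹) * g⁻¹ = k⁻¹ * (k * g * h * x.1 * (k * g * h)⁻¹) * k := by group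
    rw [e]
    exact K.mul_mem (K.mul_mem (K.inv_mem hk) h2) hk

/-- The size of the intersections of left and right cosets in a double coset. -/
noncomputable def ms (H K : Subgroup G) (σ : DoubleCoset.Quotient (K : Set G) (H : Set G)) : ℕ :=
  Nat.card (H ⊓ Kc K σ.out : Subgroup G)

omit [Fintype G] in
lemma ms_dm (H K : Subgroup G) (g : G) :
    ms H K (dm H K g) = Nat.card (H ⊓ Kc K g : Subgroup G) := by
  apply card_inter_congr
  exact DoubleCoset.out_eq' K H _

omit [Fintype G] in
lemma card_ab (H K : Subgroup G) (x : G ⧸ H) (y : Quotient (QuotientGroup.rightRel K))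
    (hd : pm H K x = qm H K y) :
    Nat.card {g // am H g = x ∧ bm K g = y} = ms H K (pm H K x) := by
  obtain ⟨g1, rfl⟩ := am_surj H x
  obtain ⟨g2, rfl⟩ := bm_surj K y
  rw [pm_am, qm_bm, dm_eq] at hd
  obtain ⟨k, hk, h, hh, rfl⟩ := hd
  have e1 : am H g1 = am H (g1 * h) := (am_eq H _ _).2 (by rw [inv_mul_cancel_left]; exact hh)
  have e2 : bm K (k * g1 * h) = bm K (g1 * h) := (bm_eq K _ _).2 (by
    have : g1 * h * (k * g1 * h)⁻¹ = k⁻¹ := by group
    rw [this]; exact K.inv_mem hk)
  rw [e1, e2, card_ab_self, pm_am, ms_dm]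

/-- The number of left cosets in a double coset. -/
noncomputable def ts (H K : Subgroup G) (σ : DoubleCoset.Quotient (K : Set G) (H : Set G)) : ℕ :=
  Nat.card {x // pm H K x = σ}

lemma card_dm_left (H K : Subgroup G) (σ : DoubleCoset.Quotient (K : Set G) (H : Set G)) :
    Nat.card {g // dm H K g = σ} = ts H K σ * Nat.card H := by
  classical
  have e : {g // dm H K g = σ} ≃ Σ x : {x // pm H K x = σ}, {g // am H g = x.1} :=
    { toFun := fun g => ⟨⟨am H g.1, g.2⟩, ⟨g.1, rfl⟩⟩
      invFun := fun t => ⟨t.2.1, by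
        have := t.1.2
        rw [← t.2.2] at this
        exact this⟩
      left_inv := fun g => rfl
      right_inv := fun t => by
        obtain ⟨⟨x, hx⟩, ⟨g, hg⟩⟩ := t
        simp only at hg
        subst hg
        rfl }
  rw [Nat.card_congr e, Nat.card_sigma]
  simp only [card_am]
  rw [Finset.sum_const, smul_eq_mul, Finset.card_univ, ts]
  congr 1
  exact Nat.card_eq_fintype_card.symm

lemma card_dm_right (H K : Subgroup G) (σ : DoubleCoset.Quotient (K : Set G) (H : Set G)) :
    Nat.card {g // dm H K g = σ} = Nat.card {y // qm H K y = σ} * Nat.card K := by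
  classical
  have e : {g // dm H K g = σ} ≃ Σ y : {y // qm H K y = σ}, {g // bm K g = y.1} :=
    { toFun := fun g => ⟨⟨bm K g.1, g.2⟩, ⟨g.1, rfl⟩⟩
      invFun := fun t => ⟨t.2.1, by
        have := t.1.2
        rw [← t.2.2] at this
        exact this⟩
      left_inv := fun g => rfl
      right_inv := fun t => by
        obtain ⟨⟨x, hx⟩, ⟨g, hg⟩⟩ := t
        simp only at hg
        subst hg
        rfl }
  rw [Nat.card_congr e, Nat.card_sigma]
  simp only [card_bm]
  rw [Finset.sum_const, smul_eq_mul, Finset.card_univ]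
  congr 1
  exact Nat.card_eq_fintype_card.symm

lemma ts_right (H K : Subgroup G) (hc : Nat.card H = Nat.card K)
    (σ : DoubleCoset.Quotient (K : Set G) (H : Set G)) :
    Nat.card {y // qm H K y = σ} = ts H K σ := by
  have h1 := card_dm_left H K σ
  rw [card_dm_right, ← hc] at h1
  exact Nat.eq_of_mul_eq_mul_right Nat.card_pos h1

lemma ts_mul_ms (H K : Subgroup G) (hc : Nat.card H = Nat.card K)
    (σ : DoubleCoset.Quotient (K : Set G) (H : Set G)) : ts H K σ * ms H K σ = Nat.card H := by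
  classical
  have hx : pm H K (am H σ.out) = σ := DoubleCoset.out_eq' K H σ
  have e : {g // am H g = am H σ.out} ≃
      Σ y : {y // qm H K y = σ}, {g // am H g = am H σ.out ∧ bm K g = y.1} :=
    { toFun := fun g => ⟨⟨bm K g.1, by
        have := congrArg (pm H K) g.2
        rw [hx, pm_am] at this
        rw [qm_bm]
        exact this⟩, ⟨g.1, g.2, rfl⟩⟩
      invFun := fun t => ⟨t.2.1, t.2.2.1⟩
      left_inv := fun g => rfl
      right_inv := fun t => by
        obtain ⟨⟨x, hx⟩, ⟨g, hg, hg2⟩⟩ := t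
        simp only at hg2
        subst hg2
        rfl }
  rw [← card_am H (am H σ.out), Nat.card_congr e, Nat.card_sigma]
  have : ∀ y : {y // qm H K y = σ},
      Nat.card {g // am H g = am H σ.out ∧ bm K g = y.1} = ms H K σ := by
    intro y
    rw [card_ab H K _ _ (by rw [hx, y.2]), hx]
  simp only [this]
  rw [Finset.sum_const, smul_eq_mul, Finset.card_univ, ← Nat.card_eq_fintype_card,
    ts_right H K hc]

/-- Exactly one element in every left coset `g H`. -/
def IsLT (H : Subgroup G) (S : Finset G) : Prop := ∀ g : G, ∃! s, s ∈ S ∧ g⁻¹ * s ∈ H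

/-- Exactly one element in every right coset `K g`. -/
def IsRT (K : Subgroup G) (S : Finset G) : Prop := ∀ g : G, ∃! s, s ∈ S ∧ s * g⁻¹ ∈ K

omit [Fintype G] in
lemma isLT_iff (H : Subgroup G) (S : Finset G) :
    IsLT H S ↔ ∀ x, ∃! g, g ∈ S ∧ am H g = x := by
  unfold IsLT
  rw [(am_surj H).forall]
  refine forall_congr' fun g => ?_
  refine existsUnique_congr fun s => ?_
  rw [eq_comm, am_eq]

omit [Fintype G] in
lemma isRT_iff (K : Subgroup G) (S : Finset G) :
    IsRT K S ↔ ∀ y, ∃! g, g ∈ S ∧ bm K g = y := by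
  unfold IsRT
  rw [(bm_surj K).forall]
  refine forall_congr' fun g => ?_
  refine existsUnique_congr fun s => ?_
  rw [eq_comm, bm_eq]

/-- The number of common transversals. -/
theorem card_DT (H K : Subgroup G) (hc : Nat.card H = Nat.card K)
    [Fintype (DoubleCoset.Quotient (K : Set G) (H : Set G))] :
    Nat.card {S : Finset G // IsLT H S ∧ IsRT K S} =
      ∏ σ : DoubleCoset.Quotient (K : Set G) (H : Set G),
        ((ts H K σ).factorial * ms H K σ ^ (ts H K σ)) := by
  classical
  have h1 : Nat.card {S : Finset G // IsLT H S ∧ IsRT K S} =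
      Nat.card {S : Finset G // (∀ x, ∃! g, g ∈ S ∧ am H g = x) ∧
        (∀ y, ∃! g, g ∈ S ∧ bm K g = y)} := by
    refine Nat.card_congr (Equiv.subtypeEquivRight fun S => ?_)
    rw [isLT_iff, isRT_iff]
  rw [h1, DT.card_sets, DT.card_sec (am H) (bm K) (pm H K) (qm H K) (ms H K)
    (fun g => rfl) ?_ ?_]
  · refine Finset.prod_congr rfl fun σ _ => ?_
    rw [ts, Nat.card_eq_fintype_card]
  · intro x y hxy
    rw [← Nat.card_eq_fintype_card]
    exact card_ab H K x y hxy
  · intro σ
    rw [← Nat.card_eq_fintype_card, ← Nat.card_eq_fintype_card, ts_right H K hc σ, ts]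

end Pool.Agent.X128.DTGroup
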