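import Mathlib
import Pool.Agent.X128.DTGroup

/-!
# No finite group with double coset sizes `1, …, 1, 2, 5`
-/

set_option autoImplicit false

namespace Pool.Agent.X128.DTNo

open DTGroup Subgroup

variable {G : Type*} [Group G] [Finite G]

lemma relIndex_of (H M : Subgroup G) (hle : M ≤ H) (k : ℕ)
    (h : Nat.card M * k = Nat.card H) : M.relIndex H = k := by
  have h1 : Nat.card (M.subgroupOf H) * (M.subgroupOf H).index = Nat.card H :=
    (M.subgroupOf H).card_mul_index
  rw [Nat.card_congr (Subgroup.subgroupOfEquivOfLe hle).toEquiv, ← h] at h1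
  exact Nat.eq_of_mul_eq_mul_left Nat.card_pos h1

lemma half (H M : Subgroup G) (hle : M ≤ H) (h : Nat.card M * 2 = Nat.card H) :
    H ≤ normalizer M := by
  have h1 := relIndex_of H M hle 2 h
  have : (M.subgroupOf H).Normal := normal_of_index_eq_two h1
  exact le_normalizer_of_normal_subgroupOf hle

lemma conj_mem_Kc (K : Subgroup G) (g g' : G) (x : G) (hx : g⁻¹ * g' * x * (g⁻¹ * g')⁻¹ ∈ Kc K g) :
    x ∈ Kc K g' := by
  rw [mem_Kc] at *
  have : g * (g⁻¹ * g' * x * (g⁻¹ * g')⁻¹) * g⁻¹ = g' * x * g'⁻¹ := by group
  rwa [this] at hx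

theorem no_group (H K : Subgroup G) (hc : Nat.card H = Nat.card K) (c : ℕ)
    (hidx : H.index = c + 7) (hN : Nat.card {g : G // Kc K g = H} = c * Nat.card H) (g2 : G)
    (h2 : Nat.card (H ⊓ Kc K g2 : Subgroup G) * 2 = Nat.card H) (g5 : G)
    (h5 : Nat.card (H ⊓ Kc K g5 : Subgroup G) * 5 = Nat.card H) : False := by
  have hHpos : 0 < Nat.card H := Nat.card_pos
  set L := Kc K g2 with hL
  set M : Subgroup G := H ⊓ L with hM
  have hcL : Nat.card L = Nat.card H := by rw [hL, card_Kc, hc]
  have nH : H ≤ normalizer M := half H M inf_le_left h2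
  have nL : L ≤ normalizer M := half L M inf_le_right (by rw [hcL]; exact h2)
  set J : Subgroup G := H ⊔ L with hJ
  have nJ : J ≤ normalizer M := sup_le nH nL
  have hHJ : H ≤ J := le_sup_left
  have hHneJ : H ≠ J := by
    intro h
    have h3 : L ≤ H := by rw [h]; exact le_sup_right
    have h4 : M = L := inf_eq_right.2 h3
    rw [h4, hcL] at h2
    omega
  have hJidx : H.relIndex J * J.index = H.index := relIndex_mul_index hHJ
  have hrel : H.relIndex J ≠ 1 := by
    intro h
    rw [relIndex_eq_one] at h
    exact hHneJ (le_antisymm hHJ h)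
  rcases Nat.eq_zero_or_pos c with hc0 | hc0
  · -- the index is 7
    subst hc0
    rw [hidx] at hJidx
    have hdvd : H.relIndex J ∣ 7 := by
      have : H.relIndex J ∣ 0 + 7 := ⟨_, hJidx.symm⟩
      simpa using this
    rcases (Nat.dvd_prime (by norm_num)).1 hdvd with h | h
    · exact hrel h
    · rw [h] at hJidx
      have hJ1 : J.index = 1 := by omega
      rw [index_eq_one] at hJ1
      have nM : M.Normal := by
        rw [← normalizer_eq_top_iff, eq_top_iff, ← hJ1]
        exact nJ
      have hle : M ≤ H ⊓ Kc K g5 := by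
        refine le_inf inf_le_left ?_
        intro x hx
        apply conj_mem_Kc K g2 g5
        exact inf_le_right (a := H) (nM.conj_mem x hx _)
      have := Subgroup.card_le_of_le hle
      omega
  · -- `H` and `K` are conjugate
    have hne : Nonempty {g : G // Kc K g = H} := by
      rw [← not_isEmpty_iff]
      intro hE
      rw [Nat.card_of_isEmpty] at hN
      have := Nat.mul_pos hc0 hHpos
      omega
    obtain ⟨g0, hg0⟩ := hne
    have hKc : ∀ g x : G, x ∈ Kc K (g0 * g) ↔ g * x * g⁻¹ ∈ H := by
      intro g x
      rw [mem_Kc, ← hg0, mem_Kc]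
      have : g0 * g * x * (g0 * g)⁻¹ = g0 * (g * x * g⁻¹) * g0⁻¹ := by group
      rw [this]
    have hnorm : ∀ g : G, Kc K (g0 * g) = H ↔ g ∈ normalizer (H : Set G) := by
      intro g
      rw [SetLike.ext_iff, mem_normalizer_iff]
      refine forall_congr' fun x => ?_
      rw [hKc]
      exact iff_comm
    have hcN : Nat.card (normalizer (H : Set G)) = c * Nat.card H := by
      rw [← hN]
      refine Nat.card_congr
        { toFun := fun n => ⟨g0 * n.1, (hnorm n.1).2 n.2⟩
          invFun := fun g => ⟨g0⁻¹ * g.1, (hnorm _).1 (by rw [mul_inv_cancel_left]; exact g.2)⟩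
          left_inv := fun x => Subtype.ext (by simp)
          right_inv := fun y => Subtype.ext (by simp) }
    have hrelN : H.relIndex (normalizer (H : Set G)) = c :=
      relIndex_of _ _ le_normalizer c (by rw [hcN, mul_comm])
    have hNidx : c * (normalizer (H : Set G)).index = c + 7 := by
      rw [← hidx, ← relIndex_mul_index (le_normalizer (H := H)), hrelN]
    have hcdvd : c ∣ 7 := by
      have h1 : c ∣ c + 7 := ⟨_, hNidx.symm⟩
      exact (Nat.dvd_add_right (dvd_refl c)).1 h1
    rcases (Nat.dvd_prime (by norm_num)).1 hcdvd with h | h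
    · -- `c = 1`: index 8
      subst h
      have hNH : ∀ x ∈ normalizer (H : Set G), x ∈ H := by
        have : H.relIndex (normalizer (H : Set G)) = 1 := hrelN
        rw [relIndex_eq_one] at this
        exact fun x hx => this hx
      -- the quotient of `J` by `M`
      have nMJ : (M.subgroupOf J).Normal := by
        rw [normal_subgroupOf_iff_le_normalizer (inf_le_left.trans hHJ)]
        exact nJ
      have hcard : Nat.card (J ⧸ M.subgroupOf J) = 2 * H.relIndex J := by
        show (M.subgroupOf J).index = _
        have e1 : M.relIndex H = 2 := relIndex_of H M inf_le_left 2 h2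
        have e2 := relIndex_mul_relIndex M H J inf_le_left hHJ
        rw [e1] at e2
        exact e2.symm
      have hdvd8 : H.relIndex J ∣ 2 ^ 3 := by
        have : H.relIndex J ∣ H.index := ⟨_, hJidx.symm⟩
        rw [hidx] at this
        exact this
      obtain ⟨k, -, hk⟩ := (Nat.dvd_prime_pow Nat.prime_two).1 hdvd8
      have hp : IsPGroup 2 (J ⧸ M.subgroupOf J) := by
        apply IsPGroup.of_card (n := k + 1)
        rw [hcard, hk, pow_succ, mul_comm]
      haveI : Fact (Nat.Prime 2) := ⟨Nat.prime_two⟩
      have hnil := hp.isNilpotent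
      have hnc := Group.normalizerCondition_of_isNilpotent (G := J ⧸ M.subgroupOf J)
      rw [normalizerCondition_iff_only_full_group_self_normalizing] at hnc
      set π := QuotientGroup.mk' (M.subgroupOf J) with hπ
      have hπs : Function.Surjective π := QuotientGroup.mk'_surjective _
      have hker : π.ker = M.subgroupOf J := QuotientGroup.ker_mk' _
      have hMH : M.subgroupOf J ≤ H.subgroupOf J := comap_mono inf_le_left
      have hcomap : ((H.subgroupOf J).map π).comap π = H.subgroupOf J :=
        comap_map_eq_self (by rw [hker]; exact hMH)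
      have hself : normalizer (((H.subgroupOf J).map π : Subgroup (J ⧸ M.subgroupOf J)) :
          Set (J ⧸ M.subgroupOf J)) = (H.subgroupOf J).map π := by
        apply comap_injective hπs
        rw [comap_normalizer_eq_of_surjective _ hπs]
        have hc2 : (((H.subgroupOf J).map π).comap π : Subgroup J) = H.subgroupOf J := hcomap
        rw [hc2]
        apply le_antisymm _ le_normalizer
        intro x hx
        rw [mem_subgroupOf]
        apply hNH
        rw [mem_normalizer_iff] at hx ⊢
        intro y
        constructor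
        · intro hy
          have := (hx ⟨y, hHJ hy⟩).1 (by rw [mem_subgroupOf]; exact hy)
          exact this
        · intro hy
          have hyJ : y ∈ J := by
            have h6 := hHJ hy
            have h7 := J.mul_mem (J.mul_mem (J.inv_mem x.2) h6) x.2
            have h8 : (x : G)⁻¹ * (x * y * (x : G)⁻¹) * x = y := by group
            rwa [h8] at h7
          have := (hx ⟨y, hyJ⟩).2 (by rw [mem_subgroupOf]; exact hy)
          exact this
      have htop := hnc _ hself
      have : H.subgroupOf J = ⊤ := by
        rw [← hcomap, htop, comap_top]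
      rw [subgroupOf_eq_top] at this
      exact hHneJ (le_antisymm hHJ this)
    · -- `c = 7`: the normalizer has index 2
      subst h
      have hN2 : (normalizer (H : Set G)).index = 2 := by omega
      have a2 : g0⁻¹ * g2 ∉ normalizer (H : Set G) := by
        rw [← hnorm, mul_inv_cancel_left]
        intro h
        rw [← hL] at h
        rw [hM, h, inf_idem] at h2
        omega
      have a5 : g0⁻¹ * g5 ∉ normalizer (H : Set G) := by
        rw [← hnorm, mul_inv_cancel_left]
        intro h
        rw [h, inf_idem] at h5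
        omega
      have a3 : (g0⁻¹ * g5) * (g0⁻¹ * g2)⁻¹ ∈ normalizer (H : Set G) := by
        rw [mul_mem_iff_of_index_two hN2]
        constructor
        · intro h; exact absurd h a5
        · intro h; exact absurd ((inv_mem_iff).1 h) a2
      have heq : Kc K g5 = Kc K g2 := by
        ext x
        have e5 : g5 = g0 * (g0⁻¹ * g5) := by group
        have e2 : g2 = g0 * (g0⁻¹ * g2) := by group
        rw [e5, e2, hKc, hKc]
        rw [mem_normalizer_iff] at a3
        have := a3 (g0⁻¹ * g2 * x * (g0⁻¹ * g2)⁻¹)
        rw [this]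
        have e : g0⁻¹ * g5 * (g0⁻¹ * g2)⁻¹ * (g0⁻¹ * g2 * x * (g0⁻¹ * g2)⁻¹) *
            (g0⁻¹ * g5 * (g0⁻¹ * g2)⁻¹)⁻¹ = g0⁻¹ * g5 * x * (g0⁻¹ * g5)⁻¹ := by group
        rw [e]
      rw [heq, ← hL, ← hM] at h5
      omega

end Pool.Agent.X128.DTNo
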