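import Mathlib

/-!
# Support-preserving endomorphisms of convolution semigroups: two-point measures
-/

set_option autoImplicit false

namespace Pool.Agent.X128.CE

open Finset

variable {Γ : Type*} [AddCommGroup Γ]

/-- nonzero with nonnegative coefficients -/
def Nn (f : AddMonoidAlgebra ℝ Γ) : Prop := (∀ x, 0 ≤ f.coeff x) ∧ f ≠ 0

/-- a support-preserving endomorphism, on nonnegative elements up to scalars -/
structure Hyp (F : AddMonoidAlgebra ℝ Γ → AddMonoidAlgebra ℝ Γ) : Prop where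
  nn : ∀ f, Nn f → Nn (F f)
  supp : ∀ f, Nn f → ∀ x, (F f).coeff x = 0 ↔ f.coeff x = 0
  mul : ∀ f g, Nn f → Nn g → F (f * g) = F f * F g

lemma Nn.mul [UniqueSums Γ] {f g : AddMonoidAlgebra ℝ Γ} (hf : Nn f) (hg : Nn g) : Nn (f * g) := by
  refine ⟨fun x => ?_, mul_ne_zero hf.2 hg.2⟩
  rw [AddMonoidAlgebra.coeff_mul_apply_left]
  exact Finset.sum_nonneg fun u _ => mul_nonneg (hf.1 u) (hg.1 _)

/-- the two-point element `δ_0 + a δ_v` -/
noncomputable def tp (v : Γ) (a : ℝ) : AddMonoidAlgebra ℝ Γ :=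
  AddMonoidAlgebra.single 0 1 + AddMonoidAlgebra.single v a

/-- indicator -/
noncomputable def ind [DecidableEq Γ] (u x : Γ) : ℝ := if x = u then 1 else 0

variable [DecidableEq Γ]

lemma coeff_tp (v : Γ) (a : ℝ) (x : Γ) : (tp v a).coeff x = ind 0 x + a * ind v x := by
  unfold tp ind
  rw [AddMonoidAlgebra.coeff_add, Finsupp.add_apply, AddMonoidAlgebra.coeff_single,
    AddMonoidAlgebra.coeff_single, Finsupp.single_apply, Finsupp.single_apply]
  simp only [eq_comm (a := (0 : Γ)), eq_comm (a := v)]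
  split_ifs <;> simp

lemma coeff_mul_tp (g : AddMonoidAlgebra ℝ Γ) (v : Γ) (a : ℝ) (x : Γ) :
    (g * tp v a).coeff x = g.coeff x + a * g.coeff (x - v) := by
  unfold tp
  rw [mul_add, AddMonoidAlgebra.coeff_add, Finsupp.add_apply,
    AddMonoidAlgebra.coeff_mul_single_apply, AddMonoidAlgebra.coeff_mul_single_apply, neg_zero,
    add_zero, mul_one, sub_eq_add_neg]
  ring

lemma ind_nonneg (u x : Γ) : 0 ≤ ind u x := by
  unfold ind; split_ifs <;> norm_num

lemma ind_self (u : Γ) : ind u u = 1 := by simp [ind]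

lemma ind_ne {u x : Γ} (h : x ≠ u) : ind u x = 0 := by simp [ind, h]

lemma ind_sub (u v x : Γ) : ind u (x - v) = ind (u + v) x := by
  unfold ind
  simp only [sub_eq_iff_eq_add]

lemma nn_tp {v : Γ} (hv : v ≠ 0) {a : ℝ} (ha : 0 < a) : Nn (tp v a) := by
  constructor
  · intro x
    rw [coeff_tp]
    have h1 := ind_nonneg (0 : Γ) x
    have h2 := ind_nonneg v x
    positivity
  · intro h
    have h1 : (tp v a).coeff 0 = 0 := by rw [h]; rfl
    rw [coeff_tp, ind_self, ind_ne hv.symm] at h1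
    norm_num at h1

variable {F : AddMonoidAlgebra ℝ Γ → AddMonoidAlgebra ℝ Γ}

/-- the parameter of the image of a two-point element -/
noncomputable def rho (F : AddMonoidAlgebra ℝ Γ → AddMonoidAlgebra ℝ Γ) (v : Γ) (a : ℝ) : ℝ :=
  (F (tp v a)).coeff v / (F (tp v a)).coeff 0

omit [DecidableEq Γ] in
lemma Hyp.pos (hF : Hyp F) {f : AddMonoidAlgebra ℝ Γ} (hf : Nn f) {x : Γ} (hx : f.coeff x ≠ 0) :
    0 < (F f).coeff x :=
  lt_of_le_of_ne ((hF.nn f hf).1 x) fun h => hx ((hF.supp f hf x).1 h.symm)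

lemma tp0 {v : Γ} (hv : v ≠ 0) (a : ℝ) : (tp v a).coeff 0 = 1 := by
  rw [coeff_tp, ind_self, ind_ne hv.symm]; ring

lemma tpv {v : Γ} (hv : v ≠ 0) (a : ℝ) : (tp v a).coeff v = a := by
  rw [coeff_tp, ind_self, ind_ne hv]; ring

lemma rho_pos (hF : Hyp F) {v : Γ} (hv : v ≠ 0) {a : ℝ} (ha : 0 < a) : 0 < rho F v a := by
  refine div_pos (hF.pos (nn_tp hv ha) ?_) (hF.pos (nn_tp hv ha) ?_)
  · rw [tpv hv]; exact ha.ne'
  · rw [tp0 hv]; exact one_ne_zero

lemma F_tp (hF : Hyp F) {v : Γ} (hv : v ≠ 0) {a : ℝ} (ha : 0 < a) :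
    F (tp v a) = ((F (tp v a)).coeff 0) • tp v (rho F v a) ∧ 0 < (F (tp v a)).coeff 0 := by
  have h0 : 0 < (F (tp v a)).coeff 0 := hF.pos (nn_tp hv ha) (by rw [tp0 hv]; exact one_ne_zero)
  refine ⟨?_, h0⟩
  apply AddMonoidAlgebra.ext
  ext x
  rw [AddMonoidAlgebra.coeff_smul_apply, coeff_tp, smul_eq_mul]
  by_cases hx : x = 0
  · subst hx
    rw [ind_self, ind_ne hv.symm]; ring
  · by_cases hxv : x = v
    · subst hxv
      rw [ind_self, ind_ne hx, rho]
      field_simp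
      ring
    · rw [ind_ne hx, ind_ne hxv]
      have : (F (tp v a)).coeff x = 0 := by
        rw [hF.supp _ (nn_tp hv ha), coeff_tp, ind_ne hx, ind_ne hxv]
        ring
      rw [this]; ring

/-- `G` is the formal image of the (signed) element `g` -/
def Ext (F : AddMonoidAlgebra ℝ Γ → AddMonoidAlgebra ℝ Γ) (g G : AddMonoidAlgebra ℝ Γ) : Prop :=
  ∃ h, Nn h ∧ Nn (g * h) ∧ F (g * h) = G * F h

omit [DecidableEq Γ] in
lemma Ext.all [UniqueSums Γ] (hF : Hyp F) {g G : AddMonoidAlgebra ℝ Γ} (h : Ext F g G)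
    {k : AddMonoidAlgebra ℝ Γ} (hk : Nn k) (hgk : Nn (g * k)) : F (g * k) = G * F k := by
  obtain ⟨h, hh, hgh, e⟩ := h
  have h1 : F (g * h) * F k = F (g * k) * F h := by
    rw [← hF.mul _ _ hgh hk, ← hF.mul _ _ hgk hh]
    congr 1
    ring
  rw [e] at h1
  have h2 : (G * F k) * F h = F (g * k) * F h := by rw [← h1]; ring
  exact (mul_right_cancel₀ (hF.nn h hh).2 h2).symm

/-- existence of the formal image -/
lemma exG [UniqueSums Γ] (hF : Hyp F) {g : AddMonoidAlgebra ℝ Γ} {v : Γ} (hv : v ≠ 0) {a b : ℝ}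
    (ha : 0 < a) (hb : 0 < b) (h1 : Nn (g * tp v a)) (h2 : Nn (g * tp v b))
    (hr : rho F v a ≠ rho F v b) :
    ∃ G, Ext F g G ∧ ∀ x, (F (g * tp v a)).coeff x = 0 → (F (g * tp v b)).coeff x = 0 →
      G.coeff x = 0 := by
  obtain ⟨ea, hα⟩ := F_tp hF hv ha
  obtain ⟨eb, hβ⟩ := F_tp hF hv hb
  obtain ⟨α, hαe⟩ : ∃ α, α = (F (tp v a)).coeff 0 := ⟨_, rfl⟩
  obtain ⟨β, hβe⟩ : ∃ β, β = (F (tp v b)).coeff 0 := ⟨_, rfl⟩
  obtain ⟨r, hre⟩ : ∃ r, r = rho F v a := ⟨_, rfl⟩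
  obtain ⟨s, hse⟩ : ∃ s, s = rho F v b := ⟨_, rfl⟩
  obtain ⟨P, hP⟩ : ∃ P, P = F (g * tp v a) := ⟨_, rfl⟩
  obtain ⟨Q, hQ⟩ : ∃ Q, Q = F (g * tp v b) := ⟨_, rfl⟩
  rw [← hαe, ← hre] at ea
  rw [← hβe, ← hse] at eb
  rw [← hαe] at hα
  rw [← hβe] at hβ
  rw [← hre, ← hse] at hr
  have hrel : P * (β • tp v s) = Q * (α • tp v r) := by
    rw [hP, hQ, ← ea, ← eb, ← hF.mul _ _ h1 (nn_tp hv hb), ← hF.mul _ _ h2 (nn_tp hv ha)]
    congr 1
    ring
  have hrs : r - s ≠ 0 := sub_ne_zero.2 hr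
  refine ⟨(α * (r - s))⁻¹ • ((r * α / β) • Q - s • P), ⟨tp v a, nn_tp hv ha, h1, ?_⟩, ?_⟩
  · rw [← hP, ea]
    apply AddMonoidAlgebra.ext
    ext x
    have e1 : ∀ x, β * (P.coeff x + s * P.coeff (x - v)) = α * (Q.coeff x + r * Q.coeff (x - v)) := by
      intro x
      have := congrArg (fun z : AddMonoidAlgebra ℝ Γ => z.coeff x) hrel
      simp only [mul_smul_comm, AddMonoidAlgebra.coeff_smul_apply, coeff_mul_tp, smul_eq_mul] at this
      exact this
    rw [mul_smul_comm, AddMonoidAlgebra.coeff_smul_apply, coeff_mul_tp]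
    simp only [AddMonoidAlgebra.coeff_smul_apply, AddMonoidAlgebra.coeff_sub, Finsupp.sub_apply,
      smul_eq_mul]
    have e2 := e1 x
    have e3 : Q.coeff x + r * Q.coeff (x - v) = β / α * (P.coeff x + s * P.coeff (x - v)) := by
      field_simp
      linarith
    have : α * ((α * (r - s))⁻¹ * (r * α / β * Q.coeff x - s * P.coeff x) +
        r * ((α * (r - s))⁻¹ * (r * α / β * Q.coeff (x - v) - s * P.coeff (x - v)))) =
        (r - s)⁻¹ * (r * α / β * (Q.coeff x + r * Q.coeff (x - v)) -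
          s * (P.coeff x + r * P.coeff (x - v))) := by
      field_simp
      ring
    rw [this, e3]
    field_simp
    ring
  · intro x hx1 hx2
    rw [← hP] at hx1
    rw [← hQ] at hx2
    simp only [AddMonoidAlgebra.coeff_smul_apply, AddMonoidAlgebra.coeff_sub, Finsupp.sub_apply,
      smul_eq_mul, hx1, hx2]
    ring

end Pool.Agent.X128.CE
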