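import Pool.Agent.X128.CE1

/-!
# Support-preserving endomorphisms of convolution semigroups: additivity of the parameter
-/

set_option autoImplicit false

namespace Pool.Agent.X128.CE

open Finset

variable {Γ : Type*} [AddCommGroup Γ] [DecidableEq Γ]

/-- the quadratic element `1 - c y + d y²`, `y = δ_v` -/
noncomputable def qd (v : Γ) (c d : ℝ) : AddMonoidAlgebra ℝ Γ :=
  AddMonoidAlgebra.single 0 1 + AddMonoidAlgebra.single v (-c) +
    AddMonoidAlgebra.single (v + v) d

lemma coeff_qd (v : Γ) (c d : ℝ) (x : Γ) :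
    (qd v c d).coeff x = ind 0 x - c * ind v x + d * ind (v + v) x := by
  unfold qd ind
  rw [AddMonoidAlgebra.coeff_add, AddMonoidAlgebra.coeff_add, Finsupp.add_apply, Finsupp.add_apply,
    AddMonoidAlgebra.coeff_single, AddMonoidAlgebra.coeff_single, AddMonoidAlgebra.coeff_single,
    Finsupp.single_apply, Finsupp.single_apply, Finsupp.single_apply]
  simp only [eq_comm (b := x)]
  split_ifs <;> ring

lemma coeff_qd_tp (v : Γ) (c d a : ℝ) (x : Γ) :
    (qd v c d * tp v a).coeff x = ind 0 x + (a - c) * ind v x + (d - c * a) * ind (v + v) x +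
      d * a * ind (v + v + v) x := by
  rw [coeff_mul_tp, coeff_qd, coeff_qd, ind_sub, ind_sub, ind_sub, zero_add]
  ring

lemma coeff_qd_tp_tp (v : Γ) (c d a b : ℝ) (x : Γ) :
    (qd v c d * (tp v a * tp v b)).coeff x =
      ind 0 x + (a + b - c) * ind v x + (d - c * (a + b) + a * b) * ind (v + v) x +
      (d * (a + b) - c * a * b) * ind (v + v + v) x + d * a * b * ind (v + v + v + v) x := by
  rw [← mul_assoc, coeff_mul_tp, coeff_qd_tp, coeff_qd_tp, ind_sub, ind_sub, ind_sub, ind_sub,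
    zero_add]
  ring

section tf

variable (htf : ∀ (n : ℕ) (x : Γ), n ≠ 0 → x ≠ 0 → n • x ≠ 0)
include htf

omit [DecidableEq Γ] in
lemma tf2 {v : Γ} (hv : v ≠ 0) : v + v ≠ 0 := by
  have := htf 2 v (by norm_num) hv
  rwa [two_nsmul] at this

omit [DecidableEq Γ] in
lemma tf3 {v : Γ} (hv : v ≠ 0) : v + v + v ≠ 0 := by
  have := htf 3 v (by norm_num) hv
  rwa [show 3 = 2 + 1 from rfl, add_nsmul, two_nsmul, one_nsmul] at this

omit [DecidableEq Γ] in
lemma tf4 {v : Γ} (hv : v ≠ 0) : v + v + v + v ≠ 0 := by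
  have := htf 4 v (by norm_num) hv
  rwa [show 4 = 2 + 1 + 1 from rfl, add_nsmul, add_nsmul, two_nsmul, one_nsmul] at this

variable {F : AddMonoidAlgebra ℝ Γ → AddMonoidAlgebra ℝ Γ} [UniqueSums Γ]

/-- the parameter is additive -/
lemma rho_add (hF : Hyp F) {v : Γ} (hv : v ≠ 0) {a b : ℝ} (ha : 0 < a) (hb : 0 < b) :
    rho F v (a + b) = rho F v a + rho F v b := by
  have h2 := tf2 htf hv
  have h3 := tf3 htf hv
  have h4 := tf4 htf hv
  obtain ⟨c, hc⟩ : ∃ c, c = a + b := ⟨_, rfl⟩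
  have hc0 : 0 < c := by rw [hc]; positivity
  obtain ⟨g, hg⟩ : ∃ g, g = qd v c (2 * c ^ 2) := ⟨_, rfl⟩
  -- values of the indicators
  have i0v : ind (0 : Γ) v = 0 := ind_ne hv
  have iv0 : ind v (0 : Γ) = 0 := ind_ne hv.symm
  have i20 : ind (v + v) (0 : Γ) = 0 := ind_ne h2.symm
  have i30 : ind (v + v + v) (0 : Γ) = 0 := ind_ne h3.symm
  have i40 : ind (v + v + v + v) (0 : Γ) = 0 := ind_ne h4.symm
  have i2v : ind (v + v) v = 0 := ind_ne fun h => hv (by simpa using h.symm)
  have i3v : ind (v + v + v) v = 0 := ind_ne fun h => h2 (by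
    have : v + (v + v) = v + 0 := by rw [add_zero, ← add_assoc]; exact h.symm
    exact add_left_cancel this)
  have i4v : ind (v + v + v + v) v = 0 := ind_ne fun h => h3 (by
    have : v + (v + v + v) = v + 0 := by
      rw [add_zero, ← add_assoc, ← add_assoc]; exact h.symm
    exact add_left_cancel this)
  have i0m : ind (0 : Γ) (-v) = 0 := ind_ne (neg_ne_zero.2 hv)
  have ivm : ind v (-v) = 0 := ind_ne fun h => h2 (by nth_rw 1 [← h]; exact neg_add_cancel v)
  have i2m : ind (v + v) (-v) = 0 := ind_ne fun h => h3 (by rw [← h]; exact neg_add_cancel v)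
  have i3m : ind (v + v + v) (-v) = 0 := ind_ne fun h => h4 (by rw [← h]; exact neg_add_cancel v)
  have nn1 : ∀ a' : ℝ, c ≤ a' → a' ≤ 2 * c → Nn (g * tp v a') := by
    intro a' h1 h2'
    constructor
    · intro x
      rw [hg, coeff_qd_tp]
      have e0 := ind_nonneg (0 : Γ) x
      have e1 := ind_nonneg v x
      have e2 := ind_nonneg (v + v) x
      have e3 := ind_nonneg (v + v + v) x
      have f1 : 0 ≤ a' - c := by linarith
      have f2 : 0 ≤ 2 * c ^ 2 - c * a' := by nlinarith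
      have f3 : 0 ≤ a' := by linarith
      positivity
    · intro h
      have h5 : (g * tp v a').coeff 0 = 0 := by rw [h]; rfl
      rw [hg, coeff_qd_tp, ind_self, iv0, i20, i30] at h5
      norm_num at h5
  have n1 := nn1 c le_rfl (by linarith)
  have n2 := nn1 (3 * c / 2) (by linarith) (by linarith)
  have hc2 : 0 < 3 * c / 2 := by linarith
  -- the parameter is not constant
  have hne : rho F v c ≠ rho F v (3 * c / 2) := by
    intro he
    obtain ⟨e1, p1⟩ := F_tp hF hv hc0
    obtain ⟨e2, p2⟩ := F_tp hF hv hc2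
    rw [← he] at e2
    have h5 : F (g * tp v c) * F (tp v (3 * c / 2)) = F (g * tp v (3 * c / 2)) * F (tp v c) := by
      rw [← hF.mul _ _ n1 (nn_tp hv hc2), ← hF.mul _ _ n2 (nn_tp hv hc0)]
      congr 1
      ring
    rw [e1, e2, mul_smul_comm, mul_smul_comm, ← smul_mul_assoc, ← smul_mul_assoc] at h5
    have h6 : (tp v (rho F v c)) ≠ 0 := (nn_tp hv (rho_pos hF hv hc0)).2
    have h7 := mul_right_cancel₀ h6 h5
    have h8 := congrArg (fun z : AddMonoidAlgebra ℝ Γ => z.coeff v) h7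
    simp only [AddMonoidAlgebra.coeff_smul_apply, smul_eq_mul] at h8
    have h9 : (F (g * tp v c)).coeff v = 0 := by
      rw [hF.supp _ n1, hg, coeff_qd_tp, ind_self, i0v, i2v, i3v]
      ring
    have h10 : 0 < (F (g * tp v (3 * c / 2))).coeff v := by
      refine hF.pos n2 ?_
      rw [hg, coeff_qd_tp, ind_self, i0v, i2v, i3v]
      intro h
      nlinarith
    rw [h9, mul_zero] at h8
    have := mul_pos p1 h10
    linarith
  obtain ⟨G, hG, hG0⟩ := exG hF hv hc0 hc2 n1 n2 hne
  -- values of G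
  have hGm : G.coeff (-v) = 0 := by
    refine hG0 _ ?_ ?_
    · rw [hF.supp _ n1, hg, coeff_qd_tp, i0m, ivm, i2m, i3m]; ring
    · rw [hF.supp _ n2, hg, coeff_qd_tp, i0m, ivm, i2m, i3m]; ring
  have e1 := hG.all hF (nn_tp hv hc0) n1
  obtain ⟨ec, pc⟩ := F_tp hF hv hc0
  have hGz : G.coeff 0 ≠ 0 := by
    intro h
    have h5 : 0 < (F (g * tp v c)).coeff 0 := by
      refine hF.pos n1 ?_
      rw [hg, coeff_qd_tp, ind_self, iv0, i20, i30]
      norm_num
    rw [e1, ec, mul_smul_comm, AddMonoidAlgebra.coeff_smul_apply, coeff_mul_tp, h, zero_sub, hGm]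
      at h5
    simp at h5
  have hGv : G.coeff v = -(rho F v c * G.coeff 0) := by
    have h5 : (F (g * tp v c)).coeff v = 0 := by
      rw [hF.supp _ n1, hg, coeff_qd_tp, ind_self, i0v, i2v, i3v]
      ring
    rw [e1, ec, mul_smul_comm, AddMonoidAlgebra.coeff_smul_apply, coeff_mul_tp, sub_self,
      smul_eq_mul] at h5
    have h6 := (mul_eq_zero.1 h5).resolve_left pc.ne'
    linarith
  -- two factors
  have hab := mul_pos ha hb
  have n3 : Nn (g * (tp v a * tp v b)) := by
    constructor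
    · intro x
      rw [hg, coeff_qd_tp_tp]
      have e0 := ind_nonneg (0 : Γ) x
      have e1 := ind_nonneg v x
      have e2 := ind_nonneg (v + v) x
      have e3 := ind_nonneg (v + v + v) x
      have e4 := ind_nonneg (v + v + v + v) x
      have f1 : 0 ≤ a + b - c := by linarith
      have f2 : 0 ≤ 2 * c ^ 2 - c * (a + b) + a * b := by rw [← hc]; nlinarith
      have f3 : 0 ≤ 2 * c ^ 2 * (a + b) - c * a * b := by
        rw [← hc]
        have h5 : a * b ≤ c ^ 2 := by rw [hc]; nlinarith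
        have h6 : c * (a * b) ≤ c * c ^ 2 := mul_le_mul_of_nonneg_left h5 hc0.le
        have h7 : 0 < c ^ 3 := by positivity
        nlinarith
      have f4 : 0 ≤ 2 * c ^ 2 * a * b := by positivity
      positivity
    · intro h
      have h5 : (g * (tp v a * tp v b)).coeff 0 = 0 := by rw [h]; rfl
      rw [hg, coeff_qd_tp_tp, ind_self, iv0, i20, i30, i40] at h5
      norm_num at h5
  have e3 := hG.all hF ((nn_tp hv ha).mul (nn_tp hv hb)) n3
  rw [hF.mul _ _ (nn_tp hv ha) (nn_tp hv hb)] at e3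
  obtain ⟨ea, pa⟩ := F_tp hF hv ha
  obtain ⟨eb, pb⟩ := F_tp hF hv hb
  have h5 : (F (g * (tp v a * tp v b))).coeff v = 0 := by
    rw [hF.supp _ n3, hg, coeff_qd_tp_tp, ind_self, i0v, i2v, i3v, i4v, hc]
    ring
  rw [e3, ea, eb, smul_mul_assoc, mul_smul_comm, mul_smul_comm, mul_smul_comm,
    AddMonoidAlgebra.coeff_smul_apply, AddMonoidAlgebra.coeff_smul_apply, ← mul_assoc,
    coeff_mul_tp, coeff_mul_tp, coeff_mul_tp, sub_self, zero_sub, hGm, smul_eq_mul,
    smul_eq_mul] at h5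
  have h6 := (mul_eq_zero.1 ((mul_eq_zero.1 h5).resolve_left pa.ne')).resolve_left pb.ne'
  rw [hGv] at h6
  have h7 : G.coeff 0 * (rho F v a + rho F v b - rho F v c) = 0 := by linarith
  have h8 := (mul_eq_zero.1 h7).resolve_left hGz
  rw [← hc]
  linarith

end tf

/-- a positive additive function of a positive real number is linear -/
lemma lin_of_add {r : ℝ → ℝ} (hpos : ∀ a, 0 < a → 0 < r a)
    (hadd : ∀ a b, 0 < a → 0 < b → r (a + b) = r a + r b) {a : ℝ} (ha : 0 < a) :
    r a = a * r 1 := by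
  have hmono : ∀ x y, 0 < x → x < y → r x < r y := by
    intro x y hx hxy
    have h := hadd x (y - x) hx (by linarith)
    rw [add_sub_cancel] at h
    have := hpos (y - x) (by linarith)
    linarith
  have hnat : ∀ (n : ℕ) (x : ℝ), 0 < x → r ((n + 1 : ℕ) * x) = (n + 1 : ℕ) * r x := by
    intro n x hx
    induction n with
    | zero => simp
    | succ n ih =>
      have e : ((n + 1 + 1 : ℕ) : ℝ) * x = ((n + 1 : ℕ) : ℝ) * x + x := by push_cast; ring
      rw [e, hadd _ _ (by positivity) hx, ih]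
      push_cast
      ring
  have h1 := hpos 1 one_pos
  -- |n r a - n a r 1| <= r 1
  have hb : ∀ n : ℕ, |((n + 1 : ℕ) : ℝ) * (r a - a * r 1)| ≤ 2 * r 1 := by
    intro n
    obtain ⟨N, hN⟩ : ∃ N : ℕ, N = ⌊((n + 1 : ℕ) : ℝ) * a⌋₊ := ⟨_, rfl⟩
    have hpa : 0 < ((n + 1 : ℕ) : ℝ) * a := by positivity
    have h2 : (N : ℝ) ≤ ((n + 1 : ℕ) : ℝ) * a := by rw [hN]; exact Nat.floor_le hpa.le
    have h3 : ((n + 1 : ℕ) : ℝ) * a < N + 1 := by rw [hN]; exact Nat.lt_floor_add_one _
    have h4 := hnat n a ha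
    -- upper bound
    have h5 : r (((n + 1 : ℕ) : ℝ) * a) < (N + 1 : ℕ) * r 1 := by
      have h6 := hnat N 1 one_pos
      rw [mul_one] at h6
      rw [← h6]
      refine hmono _ _ hpa ?_
      push_cast at h3 ⊢
      exact h3
    have h7 : (N : ℝ) * r 1 ≤ r (((n + 1 : ℕ) : ℝ) * a) := by
      rcases Nat.eq_zero_or_pos N with h0 | h0
      · rw [h0]; simpa using (hpos _ hpa).le
      · obtain ⟨k, hk⟩ : ∃ k, N = k + 1 := ⟨N - 1, by omega⟩
        have h6 := hnat k 1 one_pos
        rw [mul_one, ← hk] at h6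
        rw [← h6]
        rcases h2.lt_or_eq with h8 | h8
        · exact (hmono _ _ (by exact_mod_cast h0) h8).le
        · rw [h8]
    rw [abs_le]
    push_cast at h2 h3 h4 h5 h7 ⊢
    constructor <;> nlinarith
  by_contra hne
  have hd : 0 < |r a - a * r 1| := abs_pos.2 (sub_ne_zero.2 hne)
  obtain ⟨n, hn⟩ := exists_nat_gt (2 * r 1 / |r a - a * r 1|)
  have h2 := hb n
  rw [abs_mul, Nat.abs_cast] at h2
  rw [div_lt_iff₀ hd] at hn
  push_cast at h2
  nlinarith

end Pool.Agent.X128.CE
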