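import Pool.Agent.X128.CE2

/-!
# Support-preserving endomorphisms of convolution semigroups: general elements
-/

set_option autoImplicit false

namespace Pool.Agent.X128.CE

open Finset

variable {Γ : Type*} [AddCommGroup Γ] [DecidableEq Γ] [UniqueSums Γ]
variable {F : AddMonoidAlgebra ℝ Γ → AddMonoidAlgebra ℝ Γ}

section tf

variable (htf : ∀ (n : ℕ) (x : Γ), n ≠ 0 → x ≠ 0 → n • x ≠ 0)
include htf

lemma rho_lin (hF : Hyp F) {v : Γ} (hv : v ≠ 0) {a : ℝ} (ha : 0 < a) :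
    rho F v a = a * rho F v 1 :=
  lin_of_add (fun _ h => rho_pos hF hv h) (fun _ _ h h' => rho_add htf hF hv h h') ha

/-- the element with the coefficient `-γ` at `0` and `m σ` at `σ ∈ Σ` -/
noncomputable def gel (S : Finset Γ) (m : Γ → ℝ) (γ : ℝ) : AddMonoidAlgebra ℝ Γ :=
  AddMonoidAlgebra.ofCoeff (Finsupp.onFinset (insert 0 S)
    (fun x => if x = 0 then -γ else if x ∈ S then m x else 0) (by
      intro x hx
      by_contra h
      rw [Finset.mem_insert, not_or] at h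
      simp [h.1, h.2] at hx))

omit [UniqueSums Γ] htf in
lemma coeff_gel (S : Finset Γ) (m : Γ → ℝ) (γ : ℝ) (x : Γ) :
    (gel S m γ).coeff x = if x = 0 then -γ else if x ∈ S then m x else 0 := rfl

/-- the image of the elements with one negative coefficient -/
lemma image_gel (hF : Hyp F) {S : Finset Γ} {m : Γ → ℝ} {γ : ℝ} (hγ : 0 < γ)
    (h0 : (0 : Γ) ∉ S) (hsym : ∀ v ∈ S, -v ∈ S) (hm : ∀ v ∈ S, 0 < m v)
    (hmm : ∀ v ∈ S, γ ^ 2 < m v * m (-v)) (hne : S.Nonempty) :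
    ∃ G, Ext F (gel S m γ) G ∧ G.coeff 0 ≠ 0 ∧
      ∀ v ∈ S, G.coeff v * γ = -(rho F v 1 * m v * G.coeff 0) := by
  -- positivity
  have hS0 : ∀ v ∈ S, v ≠ 0 := fun v hv h => h0 (h ▸ hv)
  have hnn : ∀ v ∈ S, ∀ a : ℝ, γ / m (-v) < a → a ≤ m v / γ → Nn (gel S m γ * tp v a) := by
    intro v hv a h1 h2
    have hmv := hm v hv
    have hmv' := hm (-v) (hsym v hv)
    have ha : 0 < a := lt_trans (by positivity) h1
    rw [div_lt_iff₀ hmv'] at h1
    rw [le_div_iff₀ hγ] at h2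
    have hgn : ∀ x : Γ, x ≠ 0 → 0 ≤ (gel S m γ).coeff x := by
      intro x hx
      rw [coeff_gel, if_neg hx]
      split_ifs with h
      · exact (hm x h).le
      · exact le_rfl
    have c0 : (gel S m γ * tp v a).coeff 0 = -γ + a * m (-v) := by
      rw [coeff_mul_tp, zero_sub, coeff_gel, coeff_gel, if_pos rfl,
        if_neg (neg_ne_zero.2 (hS0 v hv)), if_pos (hsym v hv)]
    constructor
    · intro x
      by_cases hx0 : x = 0
      · rw [hx0, c0]; linarith
      · by_cases hxv : x = v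
        · rw [coeff_mul_tp, hxv, sub_self, coeff_gel, coeff_gel, if_pos rfl,
            if_neg (hS0 v hv), if_pos hv]
          linarith
        · rw [coeff_mul_tp]
          have h3 := hgn x hx0
          have h4 := hgn (x - v) (sub_ne_zero.2 hxv)
          positivity
    · intro h
      rw [h] at c0
      have : (0 : ℝ) = -γ + a * m (-v) := c0
      linarith
  have hlt : ∀ v ∈ S, γ / m (-v) < m v / γ := by
    intro v hv
    rw [div_lt_div_iff₀ (hm (-v) (hsym v hv)) hγ]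
    have := hmm v hv
    nlinarith
  have hlo : ∀ v ∈ S, 0 < γ / m (-v) := fun v hv => div_pos hγ (hm _ (hsym v hv))
  obtain ⟨v0, hv0⟩ := hne
  have hv00 := hS0 v0 hv0
  obtain ⟨a1, ha1⟩ : ∃ a1, a1 = m v0 / γ := ⟨_, rfl⟩
  obtain ⟨a2, ha2⟩ : ∃ a2, a2 = (γ / m (-v0) + m v0 / γ) / 2 := ⟨_, rfl⟩
  have hl0 := hlt v0 hv0
  have hp0 := hlo v0 hv0
  have ha1p : 0 < a1 := by rw [ha1]; linarith
  have ha2p : 0 < a2 := by rw [ha2]; linarith
  have ha21 : a2 < a1 := by rw [ha1, ha2]; linarith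
  have N1 := hnn v0 hv0 a1 (by rw [ha1]; exact hl0) ha1.le
  have N2 := hnn v0 hv0 a2 (by rw [ha2]; linarith) (by rw [ha2]; linarith)
  have hr1 := rho_pos hF hv00 one_pos
  have hrne : rho F v0 a1 ≠ rho F v0 a2 := by
    rw [rho_lin htf hF hv00 ha1p, rho_lin htf hF hv00 ha2p]
    intro h
    have := mul_right_cancel₀ hr1.ne' h
    linarith
  obtain ⟨G, hG, -⟩ := exG hF hv00 ha1p ha2p N1 N2 hrne
  -- the relation
  have hrel : ∀ v ∈ S, G.coeff v * γ = -(rho F v 1 * m v * G.coeff 0) := by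
    intro v hv
    have hvz := hS0 v hv
    have hap : 0 < m v / γ := div_pos (hm v hv) hγ
    have N := hnn v hv (m v / γ) (hlt v hv) le_rfl
    have e := hG.all hF (nn_tp hvz hap) N
    obtain ⟨ec, pc⟩ := F_tp hF hvz hap
    have h5 : (F (gel S m γ * tp v (m v / γ))).coeff v = 0 := by
      rw [hF.supp _ N, coeff_mul_tp, sub_self, coeff_gel, coeff_gel, if_pos rfl, if_neg hvz,
        if_pos hv]
      field_simp
      ring
    rw [e, ec, mul_smul_comm, AddMonoidAlgebra.coeff_smul_apply, coeff_mul_tp, sub_self,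
      smul_eq_mul, rho_lin htf hF hvz hap] at h5
    have h6 := (mul_eq_zero.1 h5).resolve_left pc.ne'
    field_simp at h6
    linarith
  refine ⟨G, hG, ?_, hrel⟩
  intro hz
  have h1 := hrel v0 hv0
  rw [hz, mul_zero, neg_zero] at h1
  have h2 := (mul_eq_zero.1 h1).resolve_right hγ.ne'
  have e := hG.all hF (nn_tp hv00 ha2p) N2
  obtain ⟨ec, pc⟩ := F_tp hF hv00 ha2p
  have h5 : 0 < (F (gel S m γ * tp v0 a2)).coeff v0 := by
    refine hF.pos N2 ?_
    rw [coeff_mul_tp, sub_self, coeff_gel, coeff_gel, if_pos rfl, if_neg hv00, if_pos hv0]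
    have : a2 * γ < m v0 := by
      calc a2 * γ < a1 * γ := by nlinarith
        _ = m v0 := by rw [ha1]; field_simp
    intro h
    linarith
  rw [e, ec, mul_smul_comm, AddMonoidAlgebra.coeff_smul_apply, coeff_mul_tp, sub_self, h2, hz]
    at h5
  simp at h5

/-- The image of a general element, seen from a vertex `u0` of its support. -/
lemma vertex (hF : Hyp F) {f : AddMonoidAlgebra ℝ Γ} (hf : Nn f) {u0 : Γ}
    (hu0 : f.coeff u0 ≠ 0)
    (hver : ∀ u u', f.coeff u ≠ 0 → f.coeff u' ≠ 0 → u + u' = u0 + u0 → u = u0) {u : Γ}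
    (hu : f.coeff u ≠ 0) (huu : u ≠ u0) :
    (F f).coeff u * rho F (u0 - u) 1 * f.coeff u0 = (F f).coeff u0 * f.coeff u := by
  -- the support
  obtain ⟨S, hS⟩ : ∃ S : Finset Γ, S = f.coeff.support := ⟨_, rfl⟩
  have hSm : ∀ x, x ∈ S ↔ f.coeff x ≠ 0 := fun x => by rw [hS, Finsupp.mem_support_iff]
  have hfpos : ∀ x ∈ S, 0 < f.coeff x := fun x hx =>
    lt_of_le_of_ne (hf.1 x) (Ne.symm ((hSm x).1 hx))
  have hu0S : u0 ∈ S := (hSm _).2 hu0
  have huS : u ∈ S := (hSm _).2 hu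
  obtain ⟨T, hT⟩ : ∃ T : Finset Γ, T = S.erase u0 := ⟨_, rfl⟩
  have hTm : ∀ x, x ∈ T ↔ x ≠ u0 ∧ x ∈ S := fun x => by rw [hT, Finset.mem_erase]
  have huT : u ∈ T := (hTm _).2 ⟨huu, huS⟩
  -- Sigma = (S - S) \ {0}
  obtain ⟨Sg, hSg⟩ : ∃ Sg : Finset Γ, Sg = ((S ×ˢ S).image fun p => p.1 - p.2).erase 0 := ⟨_, rfl⟩
  have hSgm : ∀ x, x ∈ Sg ↔ x ≠ 0 ∧ ∃ p ∈ S, ∃ q ∈ S, p - q = x := by
    intro x
    rw [hSg, Finset.mem_erase, Finset.mem_image]
    constructor
    · rintro ⟨h, ⟨p, q⟩, hpq, e⟩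
      rw [Finset.mem_product] at hpq
      exact ⟨h, p, hpq.1, q, hpq.2, e⟩
    · rintro ⟨h, p, hp, q, hq, e⟩
      exact ⟨h, (p, q), Finset.mem_product.2 ⟨hp, hq⟩, e⟩
  have hSg0 : (0 : Γ) ∉ Sg := by rw [hSgm]; exact fun h => h.1 rfl
  have hSgs : ∀ x ∈ Sg, -x ∈ Sg := by
    intro x hx
    rw [hSgm] at hx ⊢
    obtain ⟨h, p, hp, q, hq, e⟩ := hx
    exact ⟨neg_ne_zero.2 h, q, hq, p, hp, by rw [← e]; abel⟩
  have hSgp : ∀ p ∈ S, ∀ q ∈ S, p ≠ q → p - q ∈ Sg := fun p hp q hq h =>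
    (hSgm _).2 ⟨sub_ne_zero.2 h, p, hp, q, hq, rfl⟩
  -- W = u0 - T
  obtain ⟨W, hW⟩ : ∃ W : Finset Γ, W = T.image fun x => u0 - x := ⟨_, rfl⟩
  have hWm : ∀ x, x ∈ W ↔ ∃ q ∈ T, u0 - q = x := fun x => by rw [hW, Finset.mem_image]
  -- u1 - u0 is not in W
  have hWn : ∀ q ∈ T, q - u0 ∉ W := by
    intro q hq h
    obtain ⟨r, hr, e⟩ := (hWm _).1 h
    have e2 : q + r = u0 + u0 := by
      have : q - u0 - (u0 - r) = 0 := by rw [e, sub_self]
      have h3 : q + r - (u0 + u0) = 0 := by rw [← this]; abel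
      exact sub_eq_zero.1 h3
    exact ((hTm q).1 hq).1 (hver q r ((hSm q).1 ((hTm q).1 hq).2) ((hSm r).1 ((hTm r).1 hr).2) e2)
  have hWneg : ∀ x ∈ W, -x ∉ W := by
    intro x hx
    obtain ⟨q, hq, e⟩ := (hWm _).1 hx
    have := hWn q hq
    rwa [show -x = q - u0 by rw [← e]; abel]
  -- the main identity, for every choice of the small weights
  have key : ∀ dl : Γ → ℝ, (∀ x, 0 < dl x) →
      ∑ q ∈ T, ((F f).coeff u0 * f.coeff q / f.coeff u0 -
        (F f).coeff q * rho F (u0 - q) 1) * dl (u0 - q) = 0 := by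
    intro dl hdl
    obtain ⟨γ, hγe⟩ : ∃ γ, γ = (∑ q ∈ T, f.coeff q * dl (u0 - q)) / f.coeff u0 := ⟨_, rfl⟩
    have hf0 := hfpos u0 hu0S
    have hγ : 0 < γ := by
      rw [hγe]
      refine div_pos (Finset.sum_pos (fun q hq => mul_pos (hfpos q ((hTm q).1 hq).2) (hdl _))
        ⟨u, huT⟩) hf0
    have hγm : f.coeff u0 * γ = ∑ q ∈ T, f.coeff q * dl (u0 - q) := by
      rw [hγe]; field_simp
    -- the big weight
    obtain ⟨M, hM1, hM2, hM3⟩ : ∃ M : ℝ, γ < M ∧ (∀ x ∈ W, γ ^ 2 < M * dl x) ∧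
        ∀ q ∈ T, γ * f.coeff q < M * f.coeff u0 := by
      refine ⟨1 + γ + ∑ x ∈ W, γ ^ 2 / dl x + ∑ q ∈ T, γ * f.coeff q / f.coeff u0, ?_, ?_, ?_⟩
      · have h1 : 0 ≤ ∑ x ∈ W, γ ^ 2 / dl x := Finset.sum_nonneg fun x _ => by
          have := hdl x; positivity
        have h2 : 0 ≤ ∑ q ∈ T, γ * f.coeff q / f.coeff u0 := Finset.sum_nonneg fun q hq => by
          have := hfpos q ((hTm q).1 hq).2; positivity
        linarith
      · intro x hx
        have h1 : γ ^ 2 / dl x ≤ ∑ x ∈ W, γ ^ 2 / dl x :=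
          Finset.single_le_sum (f := fun x => γ ^ 2 / dl x)
            (fun y _ => by have := hdl y; positivity) hx
        have h2 : 0 ≤ ∑ q ∈ T, γ * f.coeff q / f.coeff u0 := Finset.sum_nonneg fun q hq => by
          have := hfpos q ((hTm q).1 hq).2; positivity
        have h3 := hdl x
        have h4 : γ ^ 2 / dl x < 1 + γ + ∑ x ∈ W, γ ^ 2 / dl x +
            ∑ q ∈ T, γ * f.coeff q / f.coeff u0 := by linarith
        rwa [div_lt_iff₀ h3] at h4
      · intro q hq
        have h1 : γ * f.coeff q / f.coeff u0 ≤ ∑ q ∈ T, γ * f.coeff q / f.coeff u0 :=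
          Finset.single_le_sum (f := fun q => γ * f.coeff q / f.coeff u0)
            (fun y hy => by have := hfpos y ((hTm y).1 hy).2; positivity) hq
        have h2 : 0 ≤ ∑ x ∈ W, γ ^ 2 / dl x := Finset.sum_nonneg fun x _ => by
          have := hdl x; positivity
        have h4 : γ * f.coeff q / f.coeff u0 < 1 + γ + ∑ x ∈ W, γ ^ 2 / dl x +
            ∑ q ∈ T, γ * f.coeff q / f.coeff u0 := by linarith
        rwa [div_lt_iff₀ hf0] at h4
    have hMp : 0 < M := hγ.trans hM1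
    obtain ⟨m, hm⟩ : ∃ m : Γ → ℝ, ∀ x, m x = if x ∈ W then dl x else M := ⟨_, fun _ => rfl⟩
    have hmpos : ∀ x, 0 < m x := fun x => by
      rw [hm]; split_ifs
      · exact hdl x
      · exact hMp
    have hmW : ∀ x ∈ W, m x = dl x := fun x hx => by rw [hm, if_pos hx]
    have hmN : ∀ x, x ∉ W → m x = M := fun x hx => by rw [hm, if_neg hx]
    have hmm : ∀ x ∈ Sg, γ ^ 2 < m x * m (-x) := by
      intro x _
      by_cases h1 : x ∈ W
      · rw [hmW x h1, hmN (-x) (hWneg x h1), mul_comm]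
        exact hM2 x h1
      · by_cases h2 : -x ∈ W
        · rw [hmN x h1, hmW _ h2]
          exact hM2 _ h2
        · rw [hmN x h1, hmN _ h2]
          nlinarith
    obtain ⟨G, hG, hGz, hGv⟩ := image_gel htf hF hγ hSg0 hSgs (fun v _ => hmpos v) hmm
      ⟨u - u0, hSgp u huS u0 hu0S huu⟩
    obtain ⟨g, hg⟩ : ∃ g, g = gel Sg m γ := ⟨_, rfl⟩
    rw [← hg] at hG
    have hgc : ∀ x, g.coeff x = if x = 0 then -γ else if x ∈ Sg then m x else 0 := by
      intro x; rw [hg, coeff_gel]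
    -- coefficients of f * g
    have hfg : ∀ x, (g * f).coeff x = ∑ q ∈ S, f.coeff q * g.coeff (x - q) := by
      intro x
      rw [mul_comm g f, AddMonoidAlgebra.coeff_mul_apply_left, Finsupp.sum, ← hS]
      refine Finset.sum_congr rfl fun q _ => ?_
      rw [neg_add_eq_sub]
    have hsplit : ∀ φ : Γ → ℝ, ∑ q ∈ S, φ q = φ u0 + ∑ q ∈ T, φ q := by
      intro φ
      rw [hT, Finset.add_sum_erase S φ hu0S]
    have hgp : ∀ x, x ≠ 0 → 0 ≤ g.coeff x := by
      intro x hx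
      rw [hgc, if_neg hx]
      split_ifs
      · exact (hmpos x).le
      · exact le_rfl
    have hz : (g * f).coeff u0 = 0 := by
      rw [hfg, hsplit, sub_self, hgc, if_pos rfl]
      have : ∑ q ∈ T, f.coeff q * g.coeff (u0 - q) = ∑ q ∈ T, f.coeff q * dl (u0 - q) := by
        refine Finset.sum_congr rfl fun q hq => ?_
        have h1 : u0 - q ≠ 0 := sub_ne_zero.2 (Ne.symm ((hTm q).1 hq).1)
        rw [hgc, if_neg h1, if_pos (hSgp u0 hu0S q ((hTm q).1 hq).2 (Ne.symm ((hTm q).1 hq).1)),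
          hmW _ ((hWm _).2 ⟨q, hq, rfl⟩)]
      rw [this, ← hγm]
      ring
    have hT1 : ∀ q ∈ T, 0 < (g * f).coeff q := by
      intro q hq
      have hqS := ((hTm q).1 hq).2
      have hqu := ((hTm q).1 hq).1
      rw [hfg]
      have h1 : f.coeff q * g.coeff (q - q) + f.coeff u0 * g.coeff (q - u0) ≤
          ∑ r ∈ S, f.coeff r * g.coeff (q - r) := by
        rw [hsplit, ← Finset.add_sum_erase T _ hq]
        have h2 : 0 ≤ ∑ r ∈ T.erase q, f.coeff r * g.coeff (q - r) := by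
          refine Finset.sum_nonneg fun r hr => mul_nonneg (hf.1 r) (hgp _ ?_)
          exact sub_ne_zero.2 (Ne.symm (Finset.ne_of_mem_erase hr))
        linarith
      have h3 : g.coeff (q - q) = -γ := by rw [sub_self, hgc, if_pos rfl]
      have h4 : g.coeff (q - u0) = M := by
        rw [hgc, if_neg (sub_ne_zero.2 hqu), if_pos (hSgp q hqS u0 hu0S hqu), hmN _ (hWn q hq)]
      rw [h3, h4] at h1
      have := hM3 q hq
      linarith
    have hN : Nn (g * f) := by
      constructor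
      · intro x
        by_cases hx : x ∈ S
        · by_cases hx0 : x = u0
          · rw [hx0, hz]
          · exact (hT1 x ((hTm x).2 ⟨hx0, hx⟩)).le
        · rw [hfg]
          refine Finset.sum_nonneg fun r hr => mul_nonneg (hf.1 r) (hgp _ ?_)
          exact sub_ne_zero.2 fun h => hx (h ▸ hr)
      · intro h
        have h1 := hT1 u huT
        rw [h] at h1
        exact lt_irrefl _ h1
    have e := hG.all hF hf hN
    have h5 : (F (g * f)).coeff u0 = 0 := (hF.supp _ hN u0).2 hz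
    rw [e, mul_comm, AddMonoidAlgebra.coeff_mul_apply_left, Finsupp.sum] at h5
    have hsup : (F f).coeff.support = S := by
      ext x
      rw [Finsupp.mem_support_iff, hSm, Ne, Ne, hF.supp f hf]
    rw [hsup] at h5
    have h6 : (F f).coeff u0 * G.coeff 0 + ∑ q ∈ T, (F f).coeff q * G.coeff (u0 - q) = 0 := by
      rw [← h5, hsplit (fun q => (F f).coeff q * G.coeff (-q + u0)), neg_add_cancel]
      congr 1
      refine Finset.sum_congr rfl fun q _ => ?_
      rw [neg_add_eq_sub]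
    have h7 : ∑ q ∈ T, (F f).coeff q * G.coeff (u0 - q) =
        -(G.coeff 0 / γ) * ∑ q ∈ T, (F f).coeff q * rho F (u0 - q) 1 * dl (u0 - q) := by
      rw [Finset.mul_sum]
      refine Finset.sum_congr rfl fun q hq => ?_
      have h8 := hGv (u0 - q) (hSgp u0 hu0S q ((hTm q).1 hq).2 (Ne.symm ((hTm q).1 hq).1))
      rw [hmW _ ((hWm _).2 ⟨q, hq, rfl⟩)] at h8
      have h9 : G.coeff (u0 - q) = -(rho F (u0 - q) 1 * dl (u0 - q) * G.coeff 0) / γ := by
        rw [← h8]; field_simp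
      rw [h9]
      ring
    rw [h7] at h6
    have h8 : (F f).coeff u0 * γ = ∑ q ∈ T, (F f).coeff q * rho F (u0 - q) 1 * dl (u0 - q) := by
      have h9 : G.coeff 0 * ((F f).coeff u0 * γ -
          ∑ q ∈ T, (F f).coeff q * rho F (u0 - q) 1 * dl (u0 - q)) = 0 := by
        have h10 : G.coeff 0 / γ * ((F f).coeff u0 * γ -
          ∑ q ∈ T, (F f).coeff q * rho F (u0 - q) 1 * dl (u0 - q)) = 0 := by
          rw [mul_sub]
          have : G.coeff 0 / γ * ((F f).coeff u0 * γ) = (F f).coeff u0 * G.coeff 0 := by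
            field_simp
          rw [this]
          linarith
        have h11 := (mul_eq_zero.1 h10).resolve_left (div_ne_zero hGz hγ.ne')
        rw [h11, mul_zero]
      have := (mul_eq_zero.1 h9).resolve_left hGz
      linarith
    have h9 : ∑ q ∈ T, ((F f).coeff u0 * f.coeff q / f.coeff u0 -
        (F f).coeff q * rho F (u0 - q) 1) * dl (u0 - q) =
        (F f).coeff u0 / f.coeff u0 * ∑ q ∈ T, f.coeff q * dl (u0 - q) -
          ∑ q ∈ T, (F f).coeff q * rho F (u0 - q) 1 * dl (u0 - q) := by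
      rw [Finset.mul_sum, ← Finset.sum_sub_distrib]
      refine Finset.sum_congr rfl fun q _ => ?_
      ring
    rw [h9, ← hγm, ← h8]
    field_simp
    ring
  -- vary one weight
  have k1 := key (fun _ => 1) fun _ => one_pos
  have k2 := key (fun x => if x = u0 - u then 2 else 1) fun x => by split_ifs <;> norm_num
  have k3 : ∑ q ∈ T, ((F f).coeff u0 * f.coeff q / f.coeff u0 -
      (F f).coeff q * rho F (u0 - q) 1) * ((if u0 - q = u0 - u then (2 : ℝ) else 1) - 1) = 0 := by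
    have : ∀ q ∈ T, ((F f).coeff u0 * f.coeff q / f.coeff u0 -
      (F f).coeff q * rho F (u0 - q) 1) * ((if u0 - q = u0 - u then (2 : ℝ) else 1) - 1) =
      ((F f).coeff u0 * f.coeff q / f.coeff u0 -
      (F f).coeff q * rho F (u0 - q) 1) * (if u0 - q = u0 - u then (2 : ℝ) else 1) -
      ((F f).coeff u0 * f.coeff q / f.coeff u0 -
      (F f).coeff q * rho F (u0 - q) 1) * 1 := fun q _ => by ring
    rw [Finset.sum_congr rfl this, Finset.sum_sub_distrib, k1, k2, sub_zero]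
  rw [Finset.sum_eq_single_of_mem u huT] at k3
  · rw [if_pos rfl] at k3
    have hf0 := (hfpos u0 hu0S).ne'
    field_simp at k3
    linarith
  · intro q _ hq
    rw [if_neg fun h => hq (by simpa using h)]
    ring

end tf

end Pool.Agent.X128.CE
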