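import Pool.Agent.X128.CE3

/-!
# Support-preserving endomorphisms of convolution semigroups: the classification
-/

set_option autoImplicit false

namespace Pool.Agent.X128.CE

open Finset

variable {Γ : Type*} [AddCommGroup Γ] [DecidableEq Γ] [UniqueSums Γ]
variable {F : AddMonoidAlgebra ℝ Γ → AddMonoidAlgebra ℝ Γ}

section tf

variable (htf : ∀ (n : ℕ) (x : Γ), n ≠ 0 → x ≠ 0 → n • x ≠ 0)
include htf

lemma rho_neg (hF : Hyp F) {v : Γ} (hv : v ≠ 0) : rho F v 1 * rho F (-v) 1 = 1 := by
  have h2 := tf2 htf hv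
  have hf := nn_tp hv one_pos
  have hz : ∀ x, (tp v 1).coeff x ≠ 0 → x = 0 ∨ x = v := by
    intro x hx
    by_contra h
    rw [not_or] at h
    rw [coeff_tp, ind_ne h.1, ind_ne h.2] at hx
    norm_num at hx
  have h := vertex htf hF hf (u0 := 0) (u := v) (by rw [tp0 hv]; exact one_ne_zero) ?_
    (by rw [tpv hv]; exact one_ne_zero) hv
  · rw [tp0 hv, tpv hv, zero_sub, mul_one, mul_one] at h
    have h0 : 0 < (F (tp v 1)).coeff 0 := hF.pos hf (by rw [tp0 hv]; exact one_ne_zero)
    rw [rho]
    field_simp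
    linarith
  · intro u u' hu hu' e
    rw [add_zero] at e
    rcases hz u hu with h | h
    · exact h
    · exfalso
      rcases hz u' hu' with h' | h'
      · rw [h, h', add_zero] at e; exact hv e
      · rw [h, h'] at e; exact h2 e

/-- multiplicativity in the generic case -/
lemma rho_mul_gen (hF : Hyp F) {p q : Γ} (hp : p ≠ 0) (hq : q ≠ 0) (hpq : p + q ≠ 0)
    (h1 : p + (p + q) ≠ 0) (h2 : p + q + q ≠ 0) :
    rho F (p + q) 1 = rho F p 1 * rho F q 1 := by
  obtain ⟨f, hfe⟩ : ∃ f : AddMonoidAlgebra ℝ Γ, f = tp p 1 + AddMonoidAlgebra.single (p + q) 1 :=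
    ⟨_, rfl⟩
  have hc : ∀ x, f.coeff x = ind 0 x + ind p x + ind (p + q) x := by
    intro x
    rw [hfe, AddMonoidAlgebra.coeff_add, Finsupp.add_apply, coeff_tp,
      AddMonoidAlgebra.coeff_single, Finsupp.single_apply, one_mul]
    simp only [ind, eq_comm (a := p + q)]
  have hpn : p ≠ p + q := fun h => hq (by simpa using h.symm)
  have c0 : f.coeff 0 = 1 := by
    rw [hc, ind_self, ind_ne hp.symm, ind_ne hpq.symm]; ring
  have cp : f.coeff p = 1 := by
    rw [hc, ind_self, ind_ne hp, ind_ne hpn]; ring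
  have cq : f.coeff (p + q) = 1 := by
    rw [hc, ind_self, ind_ne hpq, ind_ne hpn.symm]; ring
  have hz : ∀ x, f.coeff x ≠ 0 → x = 0 ∨ x = p ∨ x = p + q := by
    intro x hx
    by_contra h
    rw [not_or, not_or] at h
    rw [hc, ind_ne h.1, ind_ne h.2.1, ind_ne h.2.2] at hx
    norm_num at hx
  have hf : Nn f := by
    constructor
    · intro x
      rw [hc]
      have e0 := ind_nonneg (0 : Γ) x
      have e1 := ind_nonneg p x
      have e2 := ind_nonneg (p + q) x
      positivity
    · intro h
      rw [h] at c0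
      exact zero_ne_one c0
  have v0 : ∀ u u', f.coeff u ≠ 0 → f.coeff u' ≠ 0 → u + u' = 0 + 0 → u = 0 := by
    intro u u' hu hu' e
    rw [add_zero] at e
    rcases hz u hu with h | h | h
    · exact h
    · exfalso
      rcases hz u' hu' with h' | h' | h'
      · rw [h, h', add_zero] at e; exact hp e
      · rw [h, h'] at e; exact tf2 htf hp e
      · rw [h, h'] at e; exact h1 e
    · exfalso
      rcases hz u' hu' with h' | h' | h'
      · rw [h, h', add_zero] at e; exact hpq e
      · rw [h, h', add_comm] at e; exact h1 e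
      · rw [h, h'] at e; exact tf2 htf hpq e
  have v1 : ∀ u u', f.coeff u ≠ 0 → f.coeff u' ≠ 0 → u + u' = (p + q) + (p + q) → u = p + q := by
    intro u u' hu hu' e
    rcases hz u hu with h | h | h
    · exfalso
      rcases hz u' hu' with h' | h' | h'
      · rw [h, h', add_zero] at e; exact tf2 htf hpq e.symm
      · rw [h, h', zero_add] at e
        refine h2 ?_
        have : p + (p + q + q) = p + 0 := by rw [add_zero]; nth_rw 3 [e]; abel
        exact add_left_cancel this
      · rw [h, h', zero_add] at e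
        have : (p + q) + (p + q) = (p + q) + 0 := by rw [add_zero]; exact e.symm
        exact hpq (add_left_cancel this)
    · exfalso
      rcases hz u' hu' with h' | h' | h'
      · rw [h, h', add_zero] at e
        refine h2 ?_
        have : p + (p + q + q) = p + 0 := by rw [add_zero]; nth_rw 3 [e]; abel
        exact add_left_cancel this
      · rw [h, h'] at e
        refine tf2 htf hq ?_
        have : (p + p) + (q + q) = (p + p) + 0 := by
          rw [add_zero]
          calc (p + p) + (q + q) = p + q + (p + q) := by abel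
            _ = p + p := e.symm
        exact add_left_cancel this
      · rw [h, h'] at e
        exact hpn (add_right_cancel e)
    · exact h
  have e1 := vertex htf hF hf (u0 := 0) (u := p) (by rw [c0]; exact one_ne_zero) v0
    (by rw [cp]; exact one_ne_zero) hp
  have e2 := vertex htf hF hf (u0 := 0) (u := p + q) (by rw [c0]; exact one_ne_zero) v0
    (by rw [cq]; exact one_ne_zero) hpq
  have e3 := vertex htf hF hf (u0 := p + q) (u := p) (by rw [cq]; exact one_ne_zero) v1
    (by rw [cp]; exact one_ne_zero) hpn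
  rw [c0, cp, zero_sub, mul_one, mul_one] at e1
  rw [c0, cq, zero_sub, mul_one, mul_one] at e2
  rw [cp, cq, add_sub_cancel_left, mul_one, mul_one] at e3
  have f0 : 0 < (F f).coeff 0 := hF.pos hf (by rw [c0]; exact one_ne_zero)
  have n1 := rho_neg htf hF hp
  have n2 := rho_neg htf hF hpq
  -- F f p = rho p * F f 0
  have g1 : (F f).coeff p = rho F p 1 * (F f).coeff 0 := by
    rw [← e1]
    calc (F f).coeff p = (F f).coeff p * (rho F p 1 * rho F (-p) 1) := by rw [n1, mul_one]
      _ = _ := by ring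
  have g2 : (F f).coeff (p + q) = rho F (p + q) 1 * (F f).coeff 0 := by
    rw [← e2]
    calc (F f).coeff (p + q) = (F f).coeff (p + q) * (rho F (p + q) 1 * rho F (-(p + q)) 1) := by
          rw [n2, mul_one]
      _ = _ := by ring
  rw [g1, g2] at e3
  have : (rho F (p + q) 1 - rho F p 1 * rho F q 1) * (F f).coeff 0 = 0 := by linarith
  have := (mul_eq_zero.1 this).resolve_right f0.ne'
  linarith

lemma rho_mul (hF : Hyp F) {p q : Γ} (hp : p ≠ 0) (hq : q ≠ 0) (hpq : p + q ≠ 0) :
    rho F (p + q) 1 = rho F p 1 * rho F q 1 := by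
  have hdbl : ∀ {x : Γ}, x ≠ 0 → rho F (x + x) 1 = rho F x 1 * rho F x 1 := by
    intro x hx
    refine rho_mul_gen htf hF hx hx (tf2 htf hx) ?_ (tf3 htf hx)
    have := tf3 htf hx
    rwa [← add_assoc]
  -- the exceptional cases
  have hexc : ∀ {x : Γ}, x ≠ 0 → rho F (-x) 1 = rho F x 1 * rho F (-(x + x)) 1 := by
    intro x hx
    have h1 := rho_neg htf hF hx
    have h2 := rho_neg htf hF (tf2 htf hx)
    rw [hdbl hx] at h2
    have hx1 := (rho_pos hF hx one_pos).ne'
    have h3 : rho F x 1 * (rho F (-x) 1 - rho F x 1 * rho F (-(x + x)) 1) = 0 := by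
      linear_combination h1 - h2
    have := (mul_eq_zero.1 h3).resolve_left hx1
    linarith
  by_cases h1 : p + (p + q) = 0
  · have hq' : q = -(p + p) := by
      rw [← add_assoc] at h1
      exact (neg_eq_of_add_eq_zero_right h1).symm
    have hs : p + q = -p := by
      exact (neg_eq_of_add_eq_zero_right h1).symm
    rw [hs, hexc hp, ← hq']
  · by_cases h2 : p + q + q = 0
    · have hp' : p = -(q + q) := by
        rw [add_assoc] at h2
        exact eq_neg_of_add_eq_zero_left h2
      have hs : p + q = -q := eq_neg_of_add_eq_zero_left h2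
      rw [hs, hexc hq, ← hp', mul_comm]
    · exact rho_mul_gen htf hF hp hq hpq h1 h2

/-- **The classification of the support-preserving endomorphisms.** -/
theorem main (hF : Hyp F) : ∃ χ : Γ → ℝ, (∀ x, 0 < χ x) ∧ (∀ x y, χ (x + y) = χ x * χ y) ∧
    ∀ f, Nn f → ∃ c, 0 < c ∧ ∀ x, (F f).coeff x = c * (χ x * f.coeff x) := by
  obtain ⟨χ, hχ⟩ : ∃ χ : Γ → ℝ, ∀ x, χ x = if x = 0 then 1 else rho F x 1 := ⟨_, fun _ => rfl⟩
  have hχ0 : χ 0 = 1 := by rw [hχ, if_pos rfl]
  have hχn : ∀ x, x ≠ 0 → χ x = rho F x 1 := fun x hx => by rw [hχ, if_neg hx]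
  have hpos : ∀ x, 0 < χ x := by
    intro x
    by_cases hx : x = 0
    · rw [hx, hχ0]; exact one_pos
    · rw [hχn x hx]; exact rho_pos hF hx one_pos
  have hmul : ∀ x y, χ (x + y) = χ x * χ y := by
    intro x y
    by_cases hx : x = 0
    · rw [hx, zero_add, hχ0, one_mul]
    · by_cases hy : y = 0
      · rw [hy, add_zero, hχ0, mul_one]
      · by_cases hxy : x + y = 0
        · have : y = -x := (neg_eq_of_add_eq_zero_right hxy).symm
          rw [hxy, hχ0, hχn x hx, hχn y hy, this, rho_neg htf hF hx]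
        · rw [hχn _ hxy, hχn x hx, hχn y hy, rho_mul htf hF hx hy hxy]
  refine ⟨χ, hpos, hmul, fun f hf => ?_⟩
  -- a vertex of the support
  have hne : f.coeff.support.Nonempty := by
    rw [Finset.nonempty_iff_ne_empty]
    intro h
    rw [Finsupp.support_eq_empty] at h
    exact hf.2 (AddMonoidAlgebra.ext h)
  obtain ⟨u0, hu0, b0, hb0, hu⟩ := UniqueSums.uniqueAdd_of_nonempty hne hne
  have hb : b0 = u0 := (hu hb0 hu0 (add_comm b0 u0)).1
  rw [hb] at hu
  rw [Finsupp.mem_support_iff] at hu0
  have hver : ∀ u u', f.coeff u ≠ 0 → f.coeff u' ≠ 0 → u + u' = u0 + u0 → u = u0 :=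
    fun u u' h1 h2 e => (hu (Finsupp.mem_support_iff.2 h1) (Finsupp.mem_support_iff.2 h2) e).1
  have hf0 : 0 < f.coeff u0 := lt_of_le_of_ne (hf.1 u0) (Ne.symm hu0)
  have hF0 : 0 < (F f).coeff u0 := hF.pos hf hu0
  refine ⟨(F f).coeff u0 / (χ u0 * f.coeff u0), div_pos hF0 (mul_pos (hpos u0) hf0), fun x => ?_⟩
  by_cases hx : f.coeff x = 0
  · rw [hx, mul_zero, mul_zero]
    exact (hF.supp f hf x).2 hx
  · by_cases hxu : x = u0
    · rw [hxu]
      have := (hpos u0).ne'
      field_simp
    · have h := vertex htf hF hf hu0 hver hx hxu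
      have h1 : χ (u0 - x) * χ x = χ u0 := by rw [← hmul, sub_add_cancel]
      rw [← hχn (u0 - x) (sub_ne_zero.2 (Ne.symm hxu))] at h
      have h2 := (hpos x).ne'
      have h3 := (hpos (u0 - x)).ne'
      have h4 := (hpos u0).ne'
      have h5 : (F f).coeff x = (F f).coeff u0 * f.coeff x / (χ (u0 - x) * f.coeff u0) := by
        rw [eq_div_iff (mul_ne_zero h3 hf0.ne'), ← h]
        ring
      rw [h5, ← h1]
      field_simp

end tf

end Pool.Agent.X128.CE
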