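import Mathlib

/-!
# Strict convexity of the mean abandonment rate: the series
-/

set_option autoImplicit false

namespace Pool.Agent.X128.MQ

open Finset Filter Topology

/-! ### Entire power series -/

/-- the coefficients of an entire power series -/
def En (a : ℕ → ℝ) : Prop := ∀ R : ℝ, 0 ≤ R → Summable fun i => |a i| * R ^ i

/-- the power series -/
noncomputable def P (a : ℕ → ℝ) (x : ℝ) : ℝ := ∑' i, a i * x ^ i

/-- the coefficients of the derivative -/
def D (a : ℕ → ℝ) (i : ℕ) : ℝ := (i + 1) * a (i + 1)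

lemma En.summable {a : ℕ → ℝ} (h : En a) (x : ℝ) : Summable fun i => a i * x ^ i := by
  refine Summable.of_norm ?_
  refine (h |x| (abs_nonneg x)).congr fun i => ?_
  rw [norm_mul, norm_pow, Real.norm_eq_abs, Real.norm_eq_abs]

lemma En.mono {a b : ℕ → ℝ} (h : En a) (hb : ∀ i, |b i| ≤ |a i|) : En b := by
  intro R hR
  refine Summable.of_nonneg_of_le (fun i => by positivity) (fun i => ?_) (h R hR)
  exact mul_le_mul_of_nonneg_right (hb i) (by positivity)

lemma En.nat_mul {a : ℕ → ℝ} (h : En a) : En fun i => (i : ℝ) * a i := by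
  intro R hR
  refine Summable.of_nonneg_of_le (fun i => by positivity) (fun i => ?_) (h (2 * R) (by positivity))
  rw [abs_mul, Nat.abs_cast, mul_pow]
  have h1 : (i : ℝ) ≤ 2 ^ i := by exact_mod_cast (Nat.lt_two_pow_self).le
  have h2 : 0 ≤ |a i| * R ^ i := by positivity
  nlinarith

lemma En.shift {a : ℕ → ℝ} (h : En a) : En fun i => a (i + 1) := by
  intro R hR
  have h1 := (summable_nat_add_iff (f := fun i => |a i| * (R + 1) ^ i) 1).2 (h (R + 1) (by positivity))
  refine Summable.of_nonneg_of_le (fun i => by positivity) (fun i => ?_) h1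
  have h2 : R ^ i ≤ (R + 1) ^ (i + 1) := by
    calc R ^ i ≤ (R + 1) ^ i := pow_le_pow_left₀ hR (by linarith) i
      _ ≤ (R + 1) ^ (i + 1) := pow_le_pow_right₀ (by linarith) (by omega)
  exact mul_le_mul_of_nonneg_left h2 (abs_nonneg _)

lemma En.D {a : ℕ → ℝ} (h : En a) : En (D a) := by
  have := h.nat_mul.shift
  refine this.mono fun i => ?_
  simp [MQ.D]

lemma hasDerivAt_P {a : ℕ → ℝ} (h : En a) (x : ℝ) : HasDerivAt (P a) (P (D a) x) x := by
  obtain ⟨R, hR⟩ : ∃ R, R = |x| + 1 := ⟨_, rfl⟩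
  have hR0 : 0 < R := by rw [hR]; positivity
  have hs : Summable fun i : ℕ => |a i| * (i : ℝ) * R ^ (i - 1) := by
    have h1 := (h.nat_mul R hR0.le).mul_left (R⁻¹)
    refine Summable.of_nonneg_of_le (fun i => by positivity) (fun i => ?_) h1
    rcases Nat.eq_zero_or_pos i with h0 | h0
    · subst h0; simp
    · obtain ⟨k, rfl⟩ : ∃ k, i = k + 1 := ⟨i - 1, by omega⟩
      simp only [Nat.add_sub_cancel, abs_mul, Nat.abs_cast, pow_succ]
      have : R⁻¹ * (((k + 1 : ℕ) : ℝ) * |a (k + 1)| * (R ^ k * R)) =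
          |a (k + 1)| * ((k + 1 : ℕ) : ℝ) * R ^ k := by
        field_simp
      rw [this]
  have h2 : HasDerivAt (fun y => ∑' i, a i * y ^ i) (∑' i, a i * ((i : ℝ) * x ^ (i - 1))) x := by
    refine hasDerivAt_tsum_of_isPreconnected (u := fun i : ℕ => |a i| * (i : ℝ) * R ^ (i - 1))
      (t := Metric.ball (0 : ℝ) R) (y₀ := x) hs Metric.isOpen_ball
      (convex_ball (0 : ℝ) R).isPreconnected (fun i y _ => (hasDerivAt_pow i y).const_mul (a i)) ?_
      ?_ (h.summable x) ?_
    · intro i y hy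
      rw [mem_ball_zero_iff, Real.norm_eq_abs] at hy
      rw [norm_mul, norm_mul, norm_pow, Real.norm_eq_abs, Real.norm_eq_abs, Real.norm_eq_abs,
        Nat.abs_cast, ← mul_assoc]
      exact mul_le_mul_of_nonneg_left (pow_le_pow_left₀ (abs_nonneg y) hy.le _) (by positivity)
    · rw [mem_ball_zero_iff, Real.norm_eq_abs, hR]; linarith
    · rw [mem_ball_zero_iff, Real.norm_eq_abs, hR]; linarith
  have h3 : (∑' i, a i * ((i : ℝ) * x ^ (i - 1))) = P (D a) x := by
    have hs2 : Summable fun i : ℕ => a i * ((i : ℝ) * x ^ (i - 1)) := by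
      refine Summable.of_norm (Summable.of_nonneg_of_le (fun i => norm_nonneg _) (fun i => ?_) hs)
      rw [norm_mul, norm_mul, norm_pow, Real.norm_eq_abs, Real.norm_eq_abs, Real.norm_eq_abs,
        Nat.abs_cast, ← mul_assoc]
      exact mul_le_mul_of_nonneg_left
        (pow_le_pow_left₀ (abs_nonneg x) (by rw [hR]; linarith) _) (by positivity)
    rw [hs2.tsum_eq_zero_add, P]
    simp only [CharP.cast_eq_zero, zero_mul, mul_zero, zero_add]
    refine tsum_congr fun i => ?_
    simp only [D, Nat.add_sub_cancel]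
    push_cast
    ring
  rw [h3] at h2
  exact h2

lemma deriv_P {a : ℕ → ℝ} (h : En a) : deriv (P a) = P (D a) :=
  funext fun x => (hasDerivAt_P h x).deriv

lemma contDiff_P (n : ℕ) : ∀ {a : ℕ → ℝ}, En a → ContDiff ℝ n (P a) := by
  induction n with
  | zero =>
    intro a h
    rw [Nat.cast_zero, contDiff_zero]
    exact Differentiable.continuous (𝕜 := ℝ) fun x => (hasDerivAt_P h x).differentiableAt
  | succ n ih =>
    intro a h
    rw [Nat.cast_succ, contDiff_succ_iff_deriv]
    refine ⟨fun x => (hasDerivAt_P h x).differentiableAt, by simp, ?_⟩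
    rw [deriv_P h]
    exact ih h.D

/-- `x P(D a)(x) = P(i a)(x)` -/
lemma x_mul_P_D {a : ℕ → ℝ} (h : En a) (x : ℝ) : x * P (D a) x = P (fun i => (i : ℝ) * a i) x := by
  rw [P, P, (h.nat_mul.summable x).tsum_eq_zero_add, ← tsum_mul_left]
  simp only [CharP.cast_eq_zero, zero_mul, zero_add]
  refine tsum_congr fun i => ?_
  simp only [D, pow_succ]
  push_cast
  ring

end Pool.Agent.X128.MQ
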