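import Pool.Agent.X128.MQ

/-!
# Strict convexity of the mean abandonment rate: the key inequality at a fixed arrival rate
-/

set_option autoImplicit false

namespace Pool.Agent.X128.MQ

open Finset Filter Topology

/-- `min(i, m)` -/
noncomputable def mn (m : ℕ) (i : ℕ) : ℝ := min (i : ℝ) m

/-- `(i - m)^+` -/
noncomputable def ex (m : ℕ) (i : ℕ) : ℝ := max ((i : ℝ) - m) 0

/-- the death rates -/
noncomputable def dt (m : ℕ) (κ θ : ℝ) (i : ℕ) : ℝ := κ * mn m i + θ * ex m i

lemma mn_nonneg (m i : ℕ) : 0 ≤ mn m i := by unfold mn; positivity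

lemma ex_nonneg (m i : ℕ) : 0 ≤ ex m i := le_max_right _ _

lemma mn_le (m i : ℕ) : mn m i ≤ m := min_le_right _ _

lemma mn_le' (m i : ℕ) : mn m i ≤ i := min_le_left _ _

lemma mn_add_ex (m i : ℕ) : mn m i + ex m i = i := by
  unfold mn ex
  rcases le_total (i : ℝ) m with h | h
  · rw [min_eq_left h, max_eq_right (by linarith)]; ring
  · rw [min_eq_right h, max_eq_left (by linarith)]; ring

lemma mn_of_le {m i : ℕ} (h : i ≤ m) : mn m i = i := min_eq_left (by exact_mod_cast h)

lemma mn_of_ge {m i : ℕ} (h : m ≤ i) : mn m i = m := min_eq_right (by exact_mod_cast h)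

lemma ex_of_le {m i : ℕ} (h : i ≤ m) : ex m i = 0 := by
  have : (i : ℝ) ≤ m := by exact_mod_cast h
  exact max_eq_right (by linarith)

lemma mn_mono (m i : ℕ) : mn m i ≤ mn m (i + 1) := by
  unfold mn
  exact min_le_min (by push_cast; linarith) le_rfl

lemma ex_mono (m i : ℕ) : ex m i ≤ ex m (i + 1) := by
  unfold ex
  exact max_le_max (by push_cast; linarith) le_rfl

variable {m : ℕ} {κ θ : ℝ}

lemma dt_zero : dt m κ θ 0 = 0 := by
  simp [dt, mn, ex]

lemma dt_mono (hκ : 0 < κ) (hθ : 0 < θ) : Monotone (dt m κ θ) := by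
  refine monotone_nat_of_le_succ fun i => ?_
  have h1 := mn_mono m i
  have h2 := ex_mono m i
  unfold dt
  nlinarith

lemma dt_ge (hκ : 0 < κ) (hθ : 0 < θ) (i : ℕ) : min κ θ * i ≤ dt m κ θ i := by
  have h1 : min κ θ ≤ κ := min_le_left _ _
  have h2 : min κ θ ≤ θ := min_le_right _ _
  have h3 := mn_nonneg m i
  have h4 := ex_nonneg m i
  rw [← mn_add_ex m i, dt]
  nlinarith

lemma dt_pos (hκ : 0 < κ) (hθ : 0 < θ) (i : ℕ) : 0 < dt m κ θ (i + 1) := by
  have h := dt_ge (m := m) hκ hθ (i + 1)
  have h2 : 0 < min κ θ * ((i + 1 : ℕ) : ℝ) := by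
    have := lt_min hκ hθ
    positivity
  linarith

/-- summation by parts -/
lemma parts (q : ℕ → ℝ) (c : ℝ) (n : ℕ) :
    ∑ i ∈ range n, ((i : ℝ) - c) * (-∑ j ∈ range (i + 1), q j) =
      ∑ j ∈ range n, q j * ((j : ℝ) * (j - 1) / 2 - j * c) -
        ((n : ℝ) * (n - 1) / 2 - n * c) * ∑ j ∈ range n, q j := by
  induction n with
  | zero => simp
  | succ n ih =>
    rw [Finset.sum_range_succ, ih, Finset.sum_range_succ (fun j => q j * _), Finset.sum_range_succ q]
    push_cast
    ring

section core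

variable {l : ℝ} {p : ℕ → ℝ} {c cf : ℝ}

/-- The monotonicity of the solution of the Poisson equation. -/
lemma mono_v (hm : 1 ≤ m) (hκ : 0 < κ) (hθ : 0 < θ) (hl : 0 < l) (hp : ∀ i, 0 < p i)
    (hrec : ∀ i, l * p i = dt m κ θ (i + 1) * p (i + 1)) (h1 : HasSum p 1)
    (hcf : HasSum (fun i => mn m i * p i) cf) (i : ℕ) :
    (-∑ j ∈ range (i + 2), (mn m j - cf) * p j) * p i ≤
      (-∑ j ∈ range (i + 1), (mn m j - cf) * p j) * p (i + 1) ∧
    (i < m → (-∑ j ∈ range (i + 2), (mn m j - cf) * p j) * p i <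
      (-∑ j ∈ range (i + 1), (mn m j - cf) * p j) * p (i + 1)) := by
  obtain ⟨Q, hQ⟩ : ∃ Q : ℕ → ℝ, ∀ n, Q n = ∑ j ∈ range n, (mn m j - cf) * p j := ⟨_, fun _ => rfl⟩
  simp only [← hQ]
  -- `κ cf < l`
  have hkc : κ * cf < l := by
    have hd : HasSum (fun i => dt m κ θ i * p i) l := by
      have h2 : HasSum (fun i => dt m κ θ (i + 1) * p (i + 1)) l := by
        simp only [← hrec]
        simpa using h1.mul_left l
      have h3 := (hasSum_nat_add_iff (f := fun i => dt m κ θ i * p i) 1).1 h2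
      simpa [dt_zero] using h3
    have he : HasSum (fun i => θ * ex m i * p i) (l - κ * cf) := by
      have h4 := hd.sub (hcf.mul_left κ)
      have e : (fun i => θ * ex m i * p i) =
          fun i => dt m κ θ i * p i - κ * (mn m i * p i) := by
        funext i
        unfold dt
        ring
      rw [e]
      exact h4
    have h5 : θ * ex m (m + 1) * p (m + 1) ≤ l - κ * cf :=
      le_hasSum he (m + 1) fun j _ => by have := ex_nonneg m j; have := (hp j).le; positivity
    have h6 : ex m (m + 1) = 1 := by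
      unfold ex
      push_cast
      rw [max_eq_left (by linarith)]
      ring
    rw [h6] at h5
    have := mul_pos (mul_pos hθ one_pos) (hp (m + 1))
    linarith
  by_cases hi : i < m
  · -- the left form
    obtain ⟨a, ha⟩ : ∃ a, a = l / κ := ⟨_, rfl⟩
    have ha0 : 0 < a := by rw [ha]; positivity
    have hac : cf < a := by
      rw [ha, lt_div_iff₀ hκ]
      linarith
    have hrec2 : ∀ j, j < m → ((j : ℝ) + 1) * p (j + 1) = a * p j := by
      intro j hj
      have h2 := hrec j
      have h3 : dt m κ θ (j + 1) = κ * (j + 1) := by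
        unfold dt
        rw [mn_of_le (by omega), ex_of_le (by omega)]
        push_cast
        ring
      rw [h3] at h2
      rw [ha]
      field_simp
      linarith
    have hS : ∀ n, n ≤ m → -Q (n + 1) = a * p n - (a - cf) * ∑ j ∈ range (n + 1), p j := by
      intro n
      induction n with
      | zero =>
        intro _
        rw [hQ]
        simp only [zero_add, Finset.sum_range_one]
        rw [mn_of_le (by omega)]
        push_cast
        ring
      | succ n ih =>
        intro hn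
        have h2 := ih (by omega)
        have h3 := hrec2 n (by omega)
        have h4 : Q (n + 1 + 1) = Q (n + 1) + (mn m (n + 1) - cf) * p (n + 1) := by
          rw [hQ, hQ, Finset.sum_range_succ]
        rw [h4, Finset.sum_range_succ p (n + 1), mn_of_le hn]
        push_cast
        nlinarith
    have hlt : (-Q (i + 2)) * p i < (-Q (i + 1)) * p (i + 1) := by
      rw [hS (i + 1) (by omega), hS i (by omega)]
      have h2 := hrec2 i hi
      -- the key inequality for the partial sums
      have h3 : a * (∑ j ∈ range (i + 1), p j) < ((i : ℝ) + 1) * ∑ j ∈ range (i + 2), p j := by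
        have h4 : ∑ j ∈ range (i + 2), p j = ∑ j ∈ range (i + 1), p (j + 1) + p 0 :=
          Finset.sum_range_succ' p (i + 1)
        rw [h4, mul_add, Finset.mul_sum, Finset.mul_sum]
        have h5 : ∑ j ∈ range (i + 1), a * p j ≤ ∑ j ∈ range (i + 1), ((i : ℝ) + 1) * p (j + 1) := by
          refine Finset.sum_le_sum fun j hj => ?_
          have hj' : j ≤ i := by have := Finset.mem_range.1 hj; omega
          rw [← hrec2 j (by omega)]
          have : (j : ℝ) ≤ i := by exact_mod_cast hj'
          exact mul_le_mul_of_nonneg_right (by linarith) (hp _).le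
        have h6 : 0 < ((i : ℝ) + 1) * p 0 := by have := hp 0; positivity
        linarith
      obtain ⟨s1, hs1⟩ : ∃ s1, s1 = ∑ j ∈ range (i + 1), p j := ⟨_, rfl⟩
      obtain ⟨s2, hs2⟩ : ∃ s2, s2 = ∑ j ∈ range (i + 2), p j := ⟨_, rfl⟩
      have e2 : ∑ j ∈ range (i + 1 + 1), p j = s2 := hs2.symm
      rw [e2, ← hs1]
      rw [← hs1, ← hs2] at h3
      have hp1 : p i = ((i : ℝ) + 1) * p (i + 1) / a := by
        rw [h2]; field_simp
      have hi1 := hp (i + 1)
      have hpi := hp i
      -- (a p(i+1) - (a-cf) s2) p i < (a p i - (a-cf) s1) p(i+1)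
      have h7 : (a - cf) * (s1 * p (i + 1)) < (a - cf) * (s2 * p i) := by
        refine mul_lt_mul_of_pos_left ?_ (by linarith)
        rw [hp1]
        have : s1 * p (i + 1) * a < s2 * (((i : ℝ) + 1) * p (i + 1)) := by nlinarith
        calc s1 * p (i + 1) = s1 * p (i + 1) * a / a := by field_simp
          _ < s2 * (((i : ℝ) + 1) * p (i + 1)) / a := by gcongr
          _ = s2 * (((i : ℝ) + 1) * p (i + 1) / a) := by ring
      nlinarith
    exact ⟨hlt.le, fun _ => hlt⟩
  · -- the right form
    refine ⟨?_, fun h => absurd h hi⟩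
    have him : m ≤ i := not_lt.1 hi
    have hs : Summable p := h1.summable
    have h0 : HasSum (fun j => (mn m j - cf) * p j) 0 := by
      have h2 := hcf.sub (h1.mul_left cf)
      have e : (fun j => (mn m j - cf) * p j) = fun j => mn m j * p j - cf * p j := by
        funext j; ring
      rw [e]
      simpa using h2
    have hcm : cf ≤ m := by
      refine hasSum_le (fun j => ?_) hcf (by simpa using h1.mul_left (m : ℝ))
      exact mul_le_mul_of_nonneg_right (mn_le m j) (hp j).le
    have htail : ∀ n, m ≤ n → -Q n = ((m : ℝ) - cf) * ∑' j, p (j + n) := by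
      intro n hn
      have h2 := h0.summable.sum_add_tsum_nat_add n
      rw [h0.tsum_eq] at h2
      rw [hQ]
      have h3 : ∑' j, (mn m (j + n) - cf) * p (j + n) = ((m : ℝ) - cf) * ∑' j, p (j + n) := by
        rw [← tsum_mul_left]
        refine tsum_congr fun j => ?_
        rw [mn_of_ge (by omega)]
      rw [h3] at h2
      linarith
    rw [htail (i + 2) (by omega), htail (i + 1) (by omega), mul_assoc, mul_assoc]
    refine mul_le_mul_of_nonneg_left ?_ (by linarith)
    rw [← tsum_mul_right, ← tsum_mul_right]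
    have hsh : ∀ n, Summable fun j => p (j + n) := fun n => (summable_nat_add_iff n).2 hs
    refine ((hsh (i + 2)).mul_right _).tsum_le_tsum (fun j => ?_) ((hsh (i + 1)).mul_right _)
    have h2 := hrec (j + (i + 1))
    have h3 := hrec i
    have h4 : dt m κ θ (i + 1) ≤ dt m κ θ (j + (i + 1) + 1) := dt_mono hκ hθ (by omega)
    have e : j + (i + 2) = j + (i + 1) + 1 := by ring
    rw [e]
    have hd := dt_pos (m := m) hκ hθ (j + (i + 1))
    have hpp := mul_pos (hp (j + (i + 1) + 1)) (hp (i + 1))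
    -- l p(j+i+2) p i <= l p(j+i+1) p(i+1)
    have h5 : l * (p (j + (i + 1) + 1) * p i) ≤ l * (p (j + (i + 1)) * p (i + 1)) := by
      calc l * (p (j + (i + 1) + 1) * p i) = (l * p i) * p (j + (i + 1) + 1) := by ring
        _ = dt m κ θ (i + 1) * (p (j + (i + 1) + 1) * p (i + 1)) := by rw [h3]; ring
        _ ≤ dt m κ θ (j + (i + 1) + 1) * (p (j + (i + 1) + 1) * p (i + 1)) :=
          mul_le_mul_of_nonneg_right h4 hpp.le
        _ = (l * p (j + (i + 1))) * p (i + 1) := by rw [h2]; ring
        _ = l * (p (j + (i + 1)) * p (i + 1)) := by ring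
    exact le_of_mul_le_mul_left h5 hl

/-- **The key inequality**: the second derivative of `E min(X, m)` is negative. -/
theorem core (hm : 1 ≤ m) (hκ : 0 < κ) (hθ : 0 < θ) (hl : 0 < l) (hp : ∀ i, 0 < p i)
    (hrec : ∀ i, l * p i = dt m κ θ (i + 1) * p (i + 1)) (h1 : HasSum p 1)
    (hcf : HasSum (fun i => mn m i * p i) cf) (hc : HasSum (fun i : ℕ => (i : ℝ) * p i) c)
    (h2s : Summable fun i : ℕ => (i : ℝ) ^ 2 * p i) {K : ℝ}
    (hK : HasSum (fun j : ℕ => (mn m j - cf) * p j * ((j : ℝ) * (j - 1) / 2 - j * c)) K) : K < 0 := by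
  have hs : Summable p := h1.summable
  have h0 : HasSum (fun j => (mn m j - cf) * p j) 0 := by
    have h2 := hcf.sub (h1.mul_left cf)
    have e : (fun j => (mn m j - cf) * p j) = fun j => mn m j * p j - cf * p j := by
      funext j; ring
    rw [e]
    simpa using h2
  obtain ⟨Q, hQ⟩ : ∃ Q : ℕ → ℝ, ∀ n, Q n = ∑ j ∈ range n, (mn m j - cf) * p j := ⟨_, fun _ => rfl⟩
  -- the partial sums converge to K
  have hbd : ∀ j, |mn m j - cf| ≤ m + |cf| := by
    intro j
    have h3 := mn_nonneg m j
    have h4 := mn_le m j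
    calc |mn m j - cf| ≤ |mn m j| + |cf| := abs_sub _ _
      _ ≤ m + |cf| := by rw [abs_of_nonneg h3]; linarith
  have hn2 : Tendsto (fun n : ℕ => (n : ℝ) ^ 2 * Q n) atTop (𝓝 0) := by
    have h3 : Tendsto (fun n : ℕ => (m + |cf|) * ∑' j, (((j + n : ℕ) : ℝ) ^ 2 * p (j + n)))
        atTop (𝓝 0) := by
      have := (tendsto_sum_nat_add fun i : ℕ => (i : ℝ) ^ 2 * p i).const_mul (m + |cf|)
      simpa using this
    refine squeeze_zero_norm (fun n => ?_) h3
    have h4 := h0.summable.sum_add_tsum_nat_add n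
    rw [h0.tsum_eq, ← hQ] at h4
    have h5 : Q n = -∑' j, (mn m (j + n) - cf) * p (j + n) := by linarith
    have hsn : Summable fun j => (((j + n : ℕ) : ℝ) ^ 2 * p (j + n)) :=
      (summable_nat_add_iff (f := fun i : ℕ => (i : ℝ) ^ 2 * p i) n).2 h2s
    rw [h5, norm_mul, norm_neg, norm_pow, Real.norm_eq_abs, Nat.abs_cast, ← tsum_mul_left]
    have h6 : ‖∑' j, (mn m (j + n) - cf) * p (j + n)‖ ≤ ∑' j, ‖(mn m (j + n) - cf) * p (j + n)‖ := by
      refine norm_tsum_le_tsum_norm ?_
      exact ((summable_nat_add_iff n).2 h0.summable).norm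
    refine (mul_le_mul_of_nonneg_left h6 (by positivity)).trans ?_
    rw [← tsum_mul_left]
    refine Summable.tsum_le_tsum (fun j => ?_) ?_ (hsn.mul_left _)
    · rw [norm_mul, Real.norm_eq_abs, Real.norm_eq_abs, abs_of_pos (hp _)]
      have h7 : (n : ℝ) ^ 2 ≤ ((j + n : ℕ) : ℝ) ^ 2 := by
        have : (n : ℝ) ≤ ((j + n : ℕ) : ℝ) := by push_cast; linarith [(Nat.cast_nonneg j : (0 : ℝ) ≤ j)]
        exact pow_le_pow_left₀ (by positivity) this 2
      calc (n : ℝ) ^ 2 * (|mn m (j + n) - cf| * p (j + n))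
          ≤ ((j + n : ℕ) : ℝ) ^ 2 * ((m + |cf|) * p (j + n)) := by
            have h8 := hbd (j + n)
            have h9 := (hp (j + n)).le
            gcongr
        _ = _ := by ring
    · exact (((summable_nat_add_iff n).2 h0.summable).norm).mul_left _
  have hT : Tendsto (fun n : ℕ => ∑ i ∈ range n, ((i : ℝ) - c) *
      (-∑ j ∈ range (i + 1), (mn m j - cf) * p j)) atTop (𝓝 K) := by
    have h3 := hK.tendsto_sum_nat
    have h4 : Tendsto (fun n : ℕ => ((n : ℝ) * (n - 1) / 2 - n * c) * Q n) atTop (𝓝 0) := by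
      have hnQ : Tendsto (fun n : ℕ => (n : ℝ) * Q n) atTop (𝓝 0) := by
        refine squeeze_zero_norm' ?_ (by simpa using hn2.norm)
        filter_upwards [eventually_ge_atTop 1] with n hn
        simp only [norm_mul, norm_pow, Real.norm_eq_abs, Nat.abs_cast]
        have : (1 : ℝ) ≤ n := by exact_mod_cast hn
        exact mul_le_mul_of_nonneg_right (by nlinarith) (abs_nonneg _)
      have h5 := (hn2.const_mul (1 / 2)).sub (hnQ.const_mul (1 / 2 + c))
      simp only [mul_zero, sub_zero] at h5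
      refine h5.congr fun n => ?_
      ring
    have h5 := h3.sub h4
    rw [sub_zero] at h5
    refine h5.congr fun n => ?_
    rw [parts, hQ]
  -- the ratio is nonincreasing
  obtain ⟨v, hv⟩ : ∃ v : ℕ → ℝ, ∀ i, v i = (-∑ j ∈ range (i + 1), (mn m j - cf) * p j) / p i :=
    ⟨_, fun _ => rfl⟩
  have hvp : ∀ i, -∑ j ∈ range (i + 1), (mn m j - cf) * p j = p i * v i := by
    intro i
    rw [hv]
    have := (hp i).ne'
    field_simp
  have hmv := mono_v hm hκ hθ hl hp hrec h1 hcf
  have hanti : Antitone v := by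
    refine antitone_nat_of_succ_le fun i => ?_
    rw [hv, hv, div_le_div_iff₀ (hp _) (hp _)]
    exact (hmv i).1
  have hlt : v 1 < v 0 := by
    rw [hv, hv, div_lt_div_iff₀ (hp _) (hp _)]
    exact (hmv 0).2 (by omega)
  have hc0 : 0 < c := by
    have : (1 : ℝ) * p 1 ≤ c := by
      have h3 := le_hasSum hc 1 fun j _ => mul_nonneg (Nat.cast_nonneg j) (hp j).le
      simpa using h3
    have := hp 1
    linarith
  obtain ⟨k, hk⟩ : ∃ k, k = ⌊c⌋₊ := ⟨_, rfl⟩
  have hkc : (k : ℝ) ≤ c := by rw [hk]; exact Nat.floor_le hc0.le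
  have hkc1 : c < k + 1 := by rw [hk]; exact Nat.lt_floor_add_one c
  have hterm : ∀ i : ℕ, ((i : ℝ) - c) * p i * (v i - v k) ≤ 0 := by
    intro i
    have hpi := (hp i).le
    rcases le_or_gt i k with h | h
    · have h3 : (i : ℝ) ≤ k := by exact_mod_cast h
      have h4 := hanti h
      exact mul_nonpos_of_nonpos_of_nonneg
        (mul_nonpos_of_nonpos_of_nonneg (by linarith) hpi) (by linarith)
    · have h3 : (k : ℝ) + 1 ≤ i := by exact_mod_cast h
      have h4 := hanti h.le
      exact mul_nonpos_of_nonneg_of_nonpos (mul_nonneg (by linarith) hpi) (by linarith)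
  obtain ⟨i0, hi0, hneg⟩ : ∃ i0 : ℕ, i0 ≤ 1 ∧ ((i0 : ℝ) - c) * p i0 * (v i0 - v k) < 0 := by
    rcases Nat.eq_zero_or_pos k with h | h
    · refine ⟨1, le_rfl, ?_⟩
      rw [h] at hkc1 ⊢
      refine mul_neg_of_pos_of_neg (mul_pos ?_ (hp 1)) (by linarith)
      push_cast at hkc1 ⊢
      linarith
    · refine ⟨0, by omega, ?_⟩
      have h4 := hanti (show 1 ≤ k from h)
      refine mul_neg_of_neg_of_pos (mul_neg_of_neg_of_pos ?_ (hp 0)) (by linarith)
      push_cast
      linarith
  have hlim : Tendsto (fun n : ℕ => ((i0 : ℝ) - c) * p i0 * (v i0 - v k) +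
      v k * ∑ i ∈ range n, ((i : ℝ) - c) * p i) atTop
      (𝓝 (((i0 : ℝ) - c) * p i0 * (v i0 - v k))) := by
    have h3 : HasSum (fun i : ℕ => ((i : ℝ) - c) * p i) 0 := by
      have h4 := hc.sub (h1.mul_left c)
      have e : (fun j : ℕ => ((j : ℝ) - c) * p j) = fun j : ℕ => (j : ℝ) * p j - c * p j := by
        funext j; ring
      rw [e]
      simpa using h4
    have h4 := (h3.tendsto_sum_nat.const_mul (v k)).const_add (((i0 : ℝ) - c) * p i0 * (v i0 - v k))
    simpa using h4
  have hle : K ≤ ((i0 : ℝ) - c) * p i0 * (v i0 - v k) := by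
    refine le_of_tendsto_of_tendsto hT hlim ?_
    filter_upwards [eventually_ge_atTop 2] with n hn
    have e : ∑ i ∈ range n, ((i : ℝ) - c) * (-∑ j ∈ range (i + 1), (mn m j - cf) * p j) =
        ∑ i ∈ range n, ((i : ℝ) - c) * p i * (v i - v k) +
          v k * ∑ i ∈ range n, ((i : ℝ) - c) * p i := by
      rw [Finset.mul_sum, ← Finset.sum_add_distrib]
      refine Finset.sum_congr rfl fun i _ => ?_
      rw [hvp]
      ring
    rw [e]
    have h3 : ∑ i ∈ range n, ((i : ℝ) - c) * p i * (v i - v k) ≤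
        ((i0 : ℝ) - c) * p i0 * (v i0 - v k) := by
      rw [← Finset.add_sum_erase (range n) _ (Finset.mem_range.2 (by omega : i0 < n))]
      have := Finset.sum_nonpos fun i (_ : i ∈ (range n).erase i0) => hterm i
      linarith
    linarith
  exact lt_of_le_of_lt hle hneg

end core

end Pool.Agent.X128.MQ
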