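import Pool.Agent.X128.MQ2

/-!
# Strict convexity of the mean abandonment rate: the functions
-/

set_option autoImplicit false

namespace Pool.Agent.X128.MQ

open Finset Filter Topology

lemma hs_congr {f g : ℕ → ℝ} {a : ℝ} (h : HasSum f a) (hfg : ∀ i, g i = f i) : HasSum g a := by
  have : g = f := funext hfg
  rwa [this]

lemma hasSum_P {a : ℕ → ℝ} (h : En a) (x : ℝ) : HasSum (fun i => a i * x ^ i) (P a x) :=
  (h.summable x).hasSum

lemma hasSum_P1 {a : ℕ → ℝ} (h : En a) (x : ℝ) :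
    HasSum (fun i : ℕ => (i : ℝ) * (a i * x ^ i)) (x * P (D a) x) := by
  rw [x_mul_P_D h]
  have := hasSum_P h.nat_mul x
  simpa [mul_assoc] using this

lemma hasSum_P2 {a : ℕ → ℝ} (h : En a) (x : ℝ) :
    HasSum (fun i : ℕ => (i : ℝ) * ((i : ℝ) - 1) * (a i * x ^ i)) (x ^ 2 * P (D (D a)) x) := by
  have hb : En fun i : ℕ => ((i : ℝ) - 1) * a i := by
    intro R hR
    have h1 := (h.nat_mul R hR).add (h R hR)
    refine Summable.of_nonneg_of_le (fun i => by positivity) (fun i => ?_) h1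
    rw [abs_mul, abs_mul, Nat.abs_cast, ← add_mul]
    refine mul_le_mul_of_nonneg_right ?_ (by positivity)
    have : |(i : ℝ) - 1| ≤ i + 1 := by
      rw [abs_le]
      constructor <;> linarith [(Nat.cast_nonneg i : (0 : ℝ) ≤ i)]
    have h3 := abs_nonneg (a i)
    nlinarith
  have h1 := hasSum_P1 hb x
  have e : x ^ 2 * P (D (D a)) x = x * P (D fun i : ℕ => ((i : ℝ) - 1) * a i) x := by
    rw [pow_two, mul_assoc, x_mul_P_D h.D]
    congr 2
    funext i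
    simp only [D]
    push_cast
    ring
  rw [e]
  refine hs_congr h1 fun i => ?_
  ring

variable {m : ℕ} {κ θ : ℝ}

/-- the weights -/
noncomputable def wt (m : ℕ) (κ θ : ℝ) (i : ℕ) : ℝ := ∏ j ∈ range i, (dt m κ θ (j + 1))⁻¹

lemma wt_pos (hκ : 0 < κ) (hθ : 0 < θ) (i : ℕ) : 0 < wt m κ θ i :=
  Finset.prod_pos fun j _ => inv_pos.2 (dt_pos hκ hθ j)

lemma wt_succ (hκ : 0 < κ) (hθ : 0 < θ) (i : ℕ) :
    dt m κ θ (i + 1) * wt m κ θ (i + 1) = wt m κ θ i := by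
  unfold wt
  rw [Finset.prod_range_succ]
  have := (dt_pos (m := m) hκ hθ i).ne'
  field_simp

lemma wt_le (hκ : 0 < κ) (hθ : 0 < θ) (i : ℕ) :
    wt m κ θ i ≤ (min κ θ)⁻¹ ^ i / i.factorial := by
  have hc := lt_min hκ hθ
  induction i with
  | zero => simp [wt]
  | succ i ih =>
    have h1 : wt m κ θ (i + 1) = wt m κ θ i * (dt m κ θ (i + 1))⁻¹ := by
      unfold wt
      rw [Finset.prod_range_succ]
    have h2 : (dt m κ θ (i + 1))⁻¹ ≤ (min κ θ * ((i + 1 : ℕ) : ℝ))⁻¹ := by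
      refine inv_anti₀ (by positivity) (dt_ge hκ hθ (i + 1))
    rw [h1]
    calc wt m κ θ i * (dt m κ θ (i + 1))⁻¹
        ≤ ((min κ θ)⁻¹ ^ i / i.factorial) * (min κ θ * ((i + 1 : ℕ) : ℝ))⁻¹ :=
          mul_le_mul ih h2 (inv_nonneg.2 (dt_pos hκ hθ i).le) (by positivity)
      _ = _ := by
          rw [Nat.factorial_succ, pow_succ]
          push_cast
          field_simp

lemma En_wt (hκ : 0 < κ) (hθ : 0 < θ) : En (wt m κ θ) := by
  intro R hR
  have h1 := Real.summable_pow_div_factorial ((min κ θ)⁻¹ * R)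
  refine Summable.of_nonneg_of_le (fun i => by positivity) (fun i => ?_) h1
  rw [abs_of_pos (wt_pos hκ hθ i), mul_pow, mul_div_right_comm]
  exact mul_le_mul_of_nonneg_right (wt_le hκ hθ i) (by positivity)

lemma En_mn (hκ : 0 < κ) (hθ : 0 < θ) : En fun i => mn m i * wt m κ θ i := by
  refine (En_wt (m := m) hκ hθ).nat_mul.mono fun i => ?_
  rw [abs_mul, abs_mul, Nat.abs_cast, abs_of_nonneg (mn_nonneg m i)]
  exact mul_le_mul_of_nonneg_right (mn_le' m i) (abs_nonneg _)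

lemma P_wt_pos (hκ : 0 < κ) (hθ : 0 < θ) {x : ℝ} (hx : 0 < x) : 0 < P (wt m κ θ) x := by
  refine (hasSum_P (En_wt hκ hθ) x).summable.tsum_pos (fun i => ?_) 0 ?_
  · have := wt_pos (m := m) hκ hθ i
    positivity
  · have := wt_pos (m := m) hκ hθ 0
    positivity

/-- the mean of `min(X, m)` -/
noncomputable def g (m : ℕ) (κ θ : ℝ) (x : ℝ) : ℝ :=
  P (fun i => mn m i * wt m κ θ i) x / P (wt m κ θ) x

/-- its derivative -/
noncomputable def g1 (m : ℕ) (κ θ : ℝ) (x : ℝ) : ℝ :=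
  (P (D fun i => mn m i * wt m κ θ i) x * P (wt m κ θ) x -
    P (fun i => mn m i * wt m κ θ i) x * P (D (wt m κ θ)) x) / P (wt m κ θ) x ^ 2

/-- its second derivative -/
noncomputable def g2 (m : ℕ) (κ θ : ℝ) (x : ℝ) : ℝ :=
  (P (D (D fun i => mn m i * wt m κ θ i)) x * P (wt m κ θ) x -
    P (fun i => mn m i * wt m κ θ i) x * P (D (D (wt m κ θ))) x) / P (wt m κ θ) x ^ 2 -
  2 * P (D (wt m κ θ)) x * (P (D fun i => mn m i * wt m κ θ i) x * P (wt m κ θ) x -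
    P (fun i => mn m i * wt m κ θ i) x * P (D (wt m κ θ)) x) / P (wt m κ θ) x ^ 3

lemma hasDerivAt_g (hκ : 0 < κ) (hθ : 0 < θ) {x : ℝ} (hx : 0 < x) :
    HasDerivAt (g m κ θ) (g1 m κ θ x) x :=
  (hasDerivAt_P (En_mn hκ hθ) x).div (hasDerivAt_P (En_wt hκ hθ) x) (P_wt_pos hκ hθ hx).ne'

lemma hasDerivAt_g1 (hκ : 0 < κ) (hθ : 0 < θ) {x : ℝ} (hx : 0 < x) :
    HasDerivAt (g1 m κ θ) (g2 m κ θ x) x := by
  have hA := hasDerivAt_P (En_mn (m := m) hκ hθ) x
  have hB := hasDerivAt_P (En_wt (m := m) hκ hθ) x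
  have hA1 := hasDerivAt_P (En_mn (m := m) hκ hθ).D x
  have hB1 := hasDerivAt_P (En_wt (m := m) hκ hθ).D x
  have hB0 := (P_wt_pos (m := m) hκ hθ hx).ne'
  have h := ((hA1.mul hB).sub (hA.mul hB1)).div (hB.pow 2) (pow_ne_zero 2 hB0)
  refine h.congr_deriv ?_
  unfold g2
  simp only [Pi.mul_apply, Pi.sub_apply, Pi.pow_apply]
  field_simp
  ring

/-- **The second derivative is negative.** -/
theorem g2_neg (hm : 1 ≤ m) (hκ : 0 < κ) (hθ : 0 < θ) {x : ℝ} (hx : 0 < x) : g2 m κ θ x < 0 := by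
  obtain ⟨B, hB⟩ : ∃ B, B = P (wt m κ θ) x := ⟨_, rfl⟩
  obtain ⟨A, hA⟩ : ∃ A, A = P (fun i => mn m i * wt m κ θ i) x := ⟨_, rfl⟩
  obtain ⟨B1, hB1⟩ : ∃ B, B = P (D (wt m κ θ)) x := ⟨_, rfl⟩
  obtain ⟨A1, hA1⟩ : ∃ A, A = P (D fun i => mn m i * wt m κ θ i) x := ⟨_, rfl⟩
  obtain ⟨B2, hB2⟩ : ∃ B, B = P (D (D (wt m κ θ))) x := ⟨_, rfl⟩
  obtain ⟨A2, hA2⟩ : ∃ A, A = P (D (D fun i => mn m i * wt m κ θ i)) x := ⟨_, rfl⟩
  have hBp : 0 < B := by rw [hB]; exact P_wt_pos hκ hθ hx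
  obtain ⟨p, hp⟩ : ∃ p : ℕ → ℝ, ∀ i, p i = wt m κ θ i * x ^ i / B := ⟨_, fun _ => rfl⟩
  have sB := hasSum_P (En_wt (m := m) hκ hθ) x
  have sA := hasSum_P (En_mn (m := m) hκ hθ) x
  have sB1 := hasSum_P1 (En_wt (m := m) hκ hθ) x
  have sA1 := hasSum_P1 (En_mn (m := m) hκ hθ) x
  have sB2 := hasSum_P2 (En_wt (m := m) hκ hθ) x
  have sA2 := hasSum_P2 (En_mn (m := m) hκ hθ) x
  rw [← hB] at sB
  rw [← hA] at sA
  rw [← hB1] at sB1
  rw [← hA1] at sA1
  rw [← hB2] at sB2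
  rw [← hA2] at sA2
  have h1 : HasSum p 1 := by
    have := sB.div_const B
    rw [div_self hBp.ne'] at this
    simpa only [← hp] using this
  have hcf : HasSum (fun i => mn m i * p i) (A / B) := by
    refine hs_congr (sA.div_const B) fun i => ?_
    rw [hp]
    ring
  have hc : HasSum (fun i : ℕ => (i : ℝ) * p i) (x * B1 / B) := by
    refine hs_congr (sB1.div_const B) fun i => ?_
    rw [hp]
    ring
  have hpp : ∀ i, 0 < p i := by
    intro i
    rw [hp]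
    have := wt_pos (m := m) hκ hθ i
    positivity
  have h2s : Summable fun i : ℕ => (i : ℝ) ^ 2 * p i := by
    have h3 := (sB2.div_const B).add hc
    refine (hs_congr h3 fun i => ?_).summable
    rw [hp]
    ring
  have hrec : ∀ i, x * p i = dt m κ θ (i + 1) * p (i + 1) := by
    intro i
    rw [hp, hp, ← wt_succ hκ hθ i]
    ring
  have hK : HasSum (fun j : ℕ => (mn m j - A / B) * p j *
      ((j : ℝ) * (j - 1) / 2 - j * (x * B1 / B)))
      ((x ^ 2 * A2 / B - A / B * (x ^ 2 * B2 / B)) / 2 -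
        x * B1 / B * (x * A1 / B - A / B * (x * B1 / B))) := by
    have h3 := (((sA2.div_const B).sub ((sB2.div_const B).mul_left (A / B))).div_const 2).sub
      (((sA1.div_const B).sub ((sB1.div_const B).mul_left (A / B))).mul_left (x * B1 / B))
    refine hs_congr h3 fun i => ?_
    rw [hp]
    ring
  have h := core hm hκ hθ hx hpp hrec h1 hcf hc h2s hK
  have e : g2 m κ θ x * (x ^ 2 / 2) = (x ^ 2 * A2 / B - A / B * (x ^ 2 * B2 / B)) / 2 -
        x * B1 / B * (x * A1 / B - A / B * (x * B1 / B)) := by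
    unfold g2
    rw [← hA, ← hB, ← hA1, ← hB1, ← hA2, ← hB2]
    field_simp
  rw [← e] at h
  by_contra hcon
  have : 0 ≤ g2 m κ θ x * (x ^ 2 / 2) := mul_nonneg (not_lt.1 hcon) (by positivity)
  linarith

lemma contDiffAt_g (hκ : 0 < κ) (hθ : 0 < θ) {x : ℝ} (hx : 0 < x) (n : ℕ) :
    ContDiffAt ℝ n (g m κ θ) x :=
  (contDiff_P n (En_mn hκ hθ)).contDiffAt.div (contDiff_P n (En_wt hκ hθ)).contDiffAt
    (P_wt_pos hκ hθ hx).ne'

lemma g_nonneg (hκ : 0 < κ) (hθ : 0 < θ) {x : ℝ} (hx : 0 < x) : 0 ≤ g m κ θ x := by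
  refine div_nonneg (tsum_nonneg fun i => ?_) (P_wt_pos hκ hθ hx).le
  have h1 := mn_nonneg m i
  have h2 := wt_pos (m := m) hκ hθ i
  positivity

lemma g_le (hκ : 0 < κ) (hθ : 0 < θ) {x : ℝ} (hx : 0 < x) : g m κ θ x ≤ m := by
  rw [g, div_le_iff₀ (P_wt_pos hκ hθ hx), P, P, ← tsum_mul_left]
  refine ((En_mn (m := m) hκ hθ).summable x).tsum_le_tsum (fun i => ?_)
    (((En_wt (m := m) hκ hθ).summable x).mul_left _)
  have h1 := mn_le m i
  have h2 := wt_pos (m := m) hκ hθ i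
  rw [mul_assoc]
  exact mul_le_mul_of_nonneg_right h1 (by positivity)

end Pool.Agent.X128.MQ
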